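import Pool.Agent.U69.CN.Scale
import Pool.Agent.TH304.MI.Defs

/-!
# The cone problem (MP_65ff7c_an): final assembly
-/

set_option autoImplicit false

open MeasureTheory Set Metric Filter Topology
open scoped ENNReal Real Pointwise

noncomputable section

namespace Pool.Agent.U69.CN

open Pool.Agent.TH703.Cone

variable {b : ℕ}

/-! ### transfer to the coordinate space -/

section transfer

variable {E : Type} [NormedAddCommGroup E] [InnerProductSpace ℝ E] [FiniteDimensional ℝ E]
  {n : ℕ}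

lemma dv_conj (L : E ≃ₗᵢ[ℝ] EuclideanSpace ℝ (Fin n)) (φ : E → E) (x : E) :
    Pool.Agent.TH304.MI.dv (fun y => L (φ (L.symm y))) (L x) = dv φ x := by
  unfold Pool.Agent.TH304.MI.dv dv
  have h1 : fderiv ℝ (fun y => L (φ (L.symm y))) (L x) =
      (L.toContinuousLinearEquiv : E →L[ℝ] EuclideanSpace ℝ (Fin n)).comp
        ((fderiv ℝ φ x).comp
          (L.toContinuousLinearEquiv.symm : EuclideanSpace ℝ (Fin n) →L[ℝ] E)) := by
    have h2 : (fun y => L (φ (L.symm y))) =
      L.toContinuousLinearEquiv ∘ (φ ∘ L.toContinuousLinearEquiv.symm) := rfl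
    rw [h2, ContinuousLinearEquiv.comp_fderiv, ContinuousLinearEquiv.comp_right_fderiv]
    congr 3
    exact L.symm_apply_apply x
  rw [h1]
  exact LinearMap.trace_conj' (fderiv ℝ φ x).toLinearMap L.toLinearEquiv

variable [MeasurableSpace E] [BorelSpace E]

lemma int_conj (L : E ≃ₗᵢ[ℝ] EuclideanSpace ℝ (Fin n)) (φ : E → E) (A : Set E) :
    ∫ y in L '' A, Pool.Agent.TH304.MI.dv (fun y => L (φ (L.symm y))) y = ∫ x in A, dv φ x := by
  have h := L.measurePreserving.setIntegral_preimage_emb L.toHomeomorph.measurableEmbedding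
    (Pool.Agent.TH304.MI.dv (fun y => L (φ (L.symm y)))) (L '' A)
  rw [← h, preimage_image_eq A L.injective]
  simp_rw [dv_conj]

lemma tsupport_conj (L : E ≃ₗᵢ[ℝ] EuclideanSpace ℝ (Fin n)) (φ : E → E) :
    tsupport (fun y => L (φ (L.symm y))) = L '' tsupport φ := by
  have h1 : Function.support (fun y => L (φ (L.symm y))) = L '' Function.support φ := by
    ext y
    simp only [Function.mem_support, ne_eq, mem_image]
    constructor
    · intro h
      refine ⟨L.symm y, fun h2 => h (by rw [h2, map_zero]), L.apply_symm_apply y⟩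
    · rintro ⟨x, hx, rfl⟩
      rw [L.symm_apply_apply]
      intro h
      exact hx (by rw [← L.symm_apply_apply (φ x), h, map_zero])
  unfold tsupport
  rw [h1]
  exact (L.toHomeomorph.image_closure _).symm

lemma tst_conj (L : E ≃ₗᵢ[ℝ] EuclideanSpace ℝ (Fin n)) {Ω : Set E} {φ : E → E}
    (h : Tst Ω φ) : ContDiff ℝ 1 (fun y => L (φ (L.symm y))) ∧
      HasCompactSupport (fun y => L (φ (L.symm y))) ∧
      tsupport (fun y => L (φ (L.symm y))) ⊆ L '' Ω ∧ ∀ y, ‖L (φ (L.symm y))‖ ≤ 1 := by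
  refine ⟨L.contDiff.comp (h.c1.comp L.symm.contDiff), ?_, ?_, fun y => ?_⟩
  · unfold HasCompactSupport
    rw [tsupport_conj]
    exact h.cs.isCompact.image L.continuous
  · rw [tsupport_conj]
    exact image_mono h.sub
  · rw [L.norm_map]
    exact h.le _

/-- the hypothesis, transferred -/
theorem transfer {c : ℝ} (hFH : Pool.Agent.TH304.MI.FH c)
    (L : E ≃ₗᵢ[ℝ] EuclideanSpace ℝ (Fin n)) (Ω A : Set E) (I : ℝ) (hΩo : IsOpen Ω)
    (hΩn : Ω.Nonempty) (hΩc : Convex ℝ Ω) (hΩb : Bornology.IsBounded Ω)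
    (hΩs : ∀ x ∈ Ω, -x ∈ Ω) (hA : MeasurableSet A) (hAΩ : A ⊆ Ω) (hv : volume A = volume Ω / 2)
    (hP : PLE Ω A I) (hmin : ∀ (F : Set E) (Q : ℝ), MeasurableSet F → F ⊆ Ω →
      volume F = volume A → PLE Ω F Q → I ≤ Q) :
    ∃ G : Set E, IsOpen G ∧ (∀ z ∈ G, ∀ t : ℝ, 0 < t → t • z ∈ G) ∧
      (∀ z ∈ G, ∀ w ∈ G, z + w ∈ G) ∧ ENNReal.ofReal c * volume Ω ≤ volume (Ω ∩ G) ∧
      volume ((Ω ∩ G) \ A) = 0 ∧ volume (Ω ∩ {z | -z ∈ G} ∩ A) = 0 := by
  have hLv : ∀ S : Set E, volume (L '' S) = volume S := by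
    intro S
    have h := L.measurePreserving.measure_preimage_emb L.toHomeomorph.measurableEmbedding
      (L '' S)
    rw [preimage_image_eq S L.injective] at h
    exact h.symm
  obtain ⟨Γ, h1, h2, h3⟩ := hFH n (L '' Ω) (L '' A) (L.toHomeomorph.isOpenMap _ hΩo)
    (hΩn.image _) (hΩc.linear_image L.toLinearEquiv.toLinearMap) (L.lipschitz.isBounded_image hΩb)
    (by
      rintro _ ⟨x, hx, rfl⟩
      exact ⟨-x, hΩs x hx, map_neg L x⟩)
    (L.toHomeomorph.measurableEmbedding.measurableSet_image.2 hA) (image_mono hAΩ)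
    (by rw [hLv, hLv, hv])
    (by
      intro F hF hFO hvF φ hφ1 hφ2 hφ3 hφ4 e he
      by_contra hcon
      push Not at hcon
      have hF0 : L ⁻¹' F ⊆ Ω := by
        intro x hx
        obtain ⟨y, hy, hxy⟩ := hFO hx
        have : y = x := L.injective hxy
        exact this ▸ hy
      have hF0m : MeasurableSet (L ⁻¹' F) := L.continuous.measurable hF
      have hFi : L '' (L ⁻¹' F) = F := image_preimage_eq F L.surjective
      have hF0v : volume (L ⁻¹' F) = volume A := by
        rw [← hLv (L ⁻¹' F), hFi, hvF, hLv]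
      set C := (∫ x in L '' A, Pool.Agent.TH304.MI.dv φ x) - e with hC
      have hPF : PLE Ω (L ⁻¹' F) C := by
        intro ψ hψ
        obtain ⟨a1, a2, a3, a4⟩ := tst_conj L hψ
        have h5 := hcon _ a1 a2 a3 a4
        have h6 := int_conj L ψ (L ⁻¹' F)
        rw [hFi] at h6
        have h7 : (∫ x in F, Pool.Agent.TH304.MI.dv (fun y => L (ψ (L.symm y))) x) + e <
          ∫ x in L '' A, Pool.Agent.TH304.MI.dv φ x := h5
        rw [h6] at h7
        linarith
      have h8 := hmin _ C hF0m hF0 hF0v hPF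
      -- the field pulled back
      have h9 : Tst Ω (fun x => L.symm (φ (L x))) := by
        refine ⟨L.symm.contDiff.comp (hφ1.comp L.contDiff), ?_, ?_, fun x => ?_⟩
        · have e1 : tsupport (fun x => L.symm (φ (L x))) = L.symm '' tsupport φ := by
            have e2 : Function.support (fun x => L.symm (φ (L x))) =
                L.symm '' Function.support φ := by
              ext y
              simp only [Function.mem_support, ne_eq, mem_image]
              constructor
              · intro h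
                refine ⟨L y, fun h2 => h (by rw [h2, map_zero]), L.symm_apply_apply y⟩
              · rintro ⟨x, hx, rfl⟩
                rw [L.apply_symm_apply]
                intro h
                exact hx (by rw [← L.apply_symm_apply (φ x), h, map_zero])
            unfold tsupport
            rw [e2]
            exact (L.symm.toHomeomorph.image_closure _).symm
          unfold HasCompactSupport
          rw [e1]
          exact hφ2.isCompact.image L.symm.continuous
        · refine closure_minimal (s := Function.support (fun x => L.symm (φ (L x))))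
            (t := L ⁻¹' tsupport φ) ?_ ((isClosed_tsupport φ).preimage L.continuous) |>.trans ?_
          · intro x hx
            apply subset_tsupport
            intro h
            apply hx
            change L.symm (φ (L x)) = 0
            rw [h, map_zero]
          · intro x hx
            obtain ⟨y, hy, hxy⟩ := hφ3 hx
            have : y = x := L.injective hxy
            exact this ▸ hy
        · rw [L.symm.norm_map]
          exact hφ4 _
      have h10 := hP _ h9
      have h11 := int_conj L (fun x => L.symm (φ (L x))) A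
      simp only [L.apply_symm_apply] at h11
      rw [← h11] at h10
      have h12 : C = (∫ x in L '' A, Pool.Agent.TH304.MI.dv φ x) - e := hC
      have h13 : (∫ x in L '' A, Pool.Agent.TH304.MI.dv (fun y => φ y) x) =
        ∫ x in L '' A, Pool.Agent.TH304.MI.dv φ x := rfl
      linarith)
  set G : Set E := L ⁻¹' interior (Γ : Set (EuclideanSpace ℝ (Fin n))) with hG
  have hsm : ∀ x ∈ interior (Γ : Set (EuclideanSpace ℝ (Fin n))), ∀ t : ℝ, 0 < t →
      t • x ∈ interior (Γ : Set (EuclideanSpace ℝ (Fin n))) := by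
    intro x hx t ht
    have h1 : IsOpen (t • interior (Γ : Set (EuclideanSpace ℝ (Fin n)))) :=
      isOpen_interior.smul₀ ht.ne'
    have h2 : t • interior (Γ : Set (EuclideanSpace ℝ (Fin n))) ⊆ Γ := by
      rintro _ ⟨y, hy, rfl⟩
      exact Γ.smul_mem ht (interior_subset hy)
    exact interior_maximal h2 h1 (smul_mem_smul_set hx)
  have hadd : ∀ x ∈ interior (Γ : Set (EuclideanSpace ℝ (Fin n))),
      ∀ y ∈ interior (Γ : Set (EuclideanSpace ℝ (Fin n))),
      x + y ∈ interior (Γ : Set (EuclideanSpace ℝ (Fin n))) := by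
    intro x hx y hy
    have h1 : IsOpen (x +ᵥ interior (Γ : Set (EuclideanSpace ℝ (Fin n)))) :=
      isOpen_interior.vadd x
    have h2 : x +ᵥ interior (Γ : Set (EuclideanSpace ℝ (Fin n))) ⊆ Γ := by
      rintro _ ⟨z, hz, rfl⟩
      exact Γ.add_mem (interior_subset hx) (interior_subset hz)
    exact interior_maximal h2 h1 (vadd_mem_vadd_set hy)
  have hGo : IsOpen G := isOpen_interior.preimage L.continuous
  refine ⟨G, hGo, ?_, ?_, ?_, ?_, ?_⟩
  · intro z hz t ht
    change L (t • z) ∈ interior (Γ : Set (EuclideanSpace ℝ (Fin n)))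
    rw [map_smul]
    exact hsm _ hz t ht
  · intro z hz w hw
    change L (z + w) ∈ interior (Γ : Set (EuclideanSpace ℝ (Fin n)))
    rw [map_add]
    exact hadd _ hz _ hw
  · have e1 : L '' (Ω ∩ G) = L '' Ω ∩ interior (Γ : Set (EuclideanSpace ℝ (Fin n))) := by
      rw [image_inter_preimage]
    have e2 : volume (L '' Ω ∩ interior (Γ : Set (EuclideanSpace ℝ (Fin n)))) =
        volume (L '' Ω ∩ (Γ : Set (EuclideanSpace ℝ (Fin n)))) := by
      apply measure_congr
      have hfr : volume (frontier (Γ : Set (EuclideanSpace ℝ (Fin n)))) = 0 :=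
        Γ.convex.addHaar_frontier volume
      refine (ae_eq_refl _).inter (interior_ae_eq_of_null_frontier hfr)
    rw [← hLv (Ω ∩ G), e1, e2, ← hLv Ω]
    exact h3
  · rw [← hLv]
    refine measure_mono_null ?_ h1
    rintro _ ⟨x, ⟨⟨hx1, hx2⟩, hx3⟩, rfl⟩
    refine ⟨⟨⟨x, hx1, rfl⟩, interior_subset hx2⟩, ?_⟩
    rintro ⟨y, hy, hxy⟩
    have : y = x := L.injective hxy
    exact hx3 (this ▸ hy)
  · rw [← hLv]
    refine measure_mono_null ?_ h2
    rintro _ ⟨x, ⟨⟨hx1, hx2⟩, hx3⟩, rfl⟩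
    refine ⟨⟨⟨x, hx1, rfl⟩, ?_⟩, ⟨x, hx3, rfl⟩⟩
    have h6 : L (-x) = - L x := map_neg L x
    have h7 : L (-x) ∈ interior (Γ : Set (EuclideanSpace ℝ (Fin n))) := hx2
    rw [h6] at h7
    have h8 : - L x ∈ (Γ : Set (EuclideanSpace ℝ (Fin n))) := interior_subset h7
    exact h8

end transfer

/-! ### the contradiction -/

/-- the wedge is measurable -/
lemma Wp_meas (u : ℂ) (σ r₀ R₁ : ℝ) : MeasurableSet (Wp u σ r₀ R₁) := by
  have c1 : Continuous fun x : ℂ => (x * u).re :=
    Complex.continuous_re.comp (continuous_id.mul continuous_const)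
  have c2 : Continuous fun x : ℂ => |(x * u).im| :=
    (Complex.continuous_im.comp (continuous_id.mul continuous_const)).abs
  exact ((isClosed_le continuous_const continuous_norm).measurableSet).inter
    (((isClosed_le continuous_norm continuous_const).measurableSet).inter
      (((isOpen_lt continuous_const c1).measurableSet).inter
        ((isClosed_le c2 (continuous_const.mul continuous_norm)).measurableSet)))

/-- the fibres of a null set -/
lemma fib_null {N : Set (W b)} (hN : volume N = 0) : ∀ᵐ x : ℂ, volume (fib N x) = 0 := by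
  obtain ⟨N', hNN', hm, hN'⟩ := exists_measurable_superset_of_null hN
  rw [vol_eq hm, lintegral_eq_zero_iff (measurable_vol_fib hm)] at hN'
  filter_upwards [hN'] with x hx
  exact measure_mono_null (fun y hy => hNN' hy) hx

/-- **the two bad volumes** -/
lemma bad {ε I η : ℝ} {A G : Set (W b)} {S : Set ℂ} (hb : 1 ≤ b) (hε : 0 < ε) (hη : 0 < η)
    (hI : 0 ≤ I) (hA : MeasurableSet A) (hAΩ : A ⊆ Om b ε)
    (hP : PLE (Om b ε) A I) (hS : MeasurableSet S)
    (A' : Set (W b)) (hA' : A' = A ∨ A' = Om b ε \ A)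
    (hG : volume (G \ A') = 0) (hGf : ∀ x ∈ S, ENNReal.ofReal (η * vb b ε) ≤ volume (fib G x)) :
    volume.real {z | z ∈ Om b ε \ A' ∧ z.fst ∈ S} ≤ 2 ^ (b + 1) * ε * I / η := by
  have hΩm := (Om_open b ε).measurableSet
  have hvb := vb_pos b hε
  have hA'm : MeasurableSet A' := by
    rcases hA' with rfl | rfl
    · exact hA
    · exact hΩm.diff hA
  have hBm : MeasurableSet {z : W b | z ∈ Om b ε \ A' ∧ z.fst ∈ S} :=
    (hΩm.diff hA'm).inter (continuous_fst'.measurable hS)
  have h5 := t5 b ε I A hb hε hA hAΩ hI hP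
  have hprod : ∀ x, volume (fib A' x) * volume (fib (Om b ε \ A') x) =
      volume (fib A x) * volume (fib (Om b ε \ A) x) := by
    intro x
    rcases hA' with h | h
    · rw [h]
    · have e : Om b ε \ A' = A := by
        rw [h, Set.sdiff_sdiff_right_self, inter_eq_right.2 hAΩ]
      rw [e, h, mul_comm]
  have h1 : ENNReal.ofReal (η * vb b ε) * volume {z : W b | z ∈ Om b ε \ A' ∧ z.fst ∈ S} ≤
      ENNReal.ofReal (2 ^ (b + 1) * ε * vb b ε * I) := by
    refine le_trans ?_ h5
    rw [vol_eq hBm, ← lintegral_const_mul _ (measurable_vol_fib hBm)]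
    refine lintegral_mono_ae ?_
    filter_upwards [fib_null hG] with x hx
    rw [← hprod x]
    by_cases hxS : x ∈ S
    · have h2 : volume (fib G x) ≤ volume (fib A' x) := by
        have h3 : fib G x ⊆ fib A' x ∪ fib (G \ A') x := by
          intro y hy
          by_cases h4 : mk x y ∈ A'
          · exact Or.inl h4
          · exact Or.inr ⟨hy, h4⟩
        calc volume (fib G x) ≤ volume (fib A' x ∪ fib (G \ A') x) := measure_mono h3
          _ ≤ volume (fib A' x) + volume (fib (G \ A') x) := measure_union_le _ _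
          _ = volume (fib A' x) := by rw [hx, add_zero]
      have h3 : fib {z : W b | z ∈ Om b ε \ A' ∧ z.fst ∈ S} x ⊆ fib (Om b ε \ A') x :=
        fun y hy => hy.1
      exact mul_le_mul' ((hGf x hxS).trans h2) (measure_mono h3)
    · have h3 : fib {z : W b | z ∈ Om b ε \ A' ∧ z.fst ∈ S} x = ∅ := by
        ext y
        simp only [mem_empty_iff_false, iff_false]
        exact fun hy => hxS hy.2
      rw [h3, measure_empty, mul_zero]
      exact bot_le
  have h2 := ENNReal.toReal_mono ENNReal.ofReal_ne_top h1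
  rw [ENNReal.toReal_mul, ENNReal.toReal_ofReal (by positivity),
    ENNReal.toReal_ofReal (by positivity)] at h2
  change η * vb b ε * volume.real {z : W b | z ∈ Om b ε \ A' ∧ z.fst ∈ S} ≤ _ at h2
  rw [le_div_iff₀ hη]
  have h3 : vb b ε * (volume.real {z : W b | z ∈ Om b ε \ A' ∧ z.fst ∈ S} * η) ≤
      vb b ε * (2 ^ (b + 1) * ε * I) := by
    calc _ = η * vb b ε * volume.real {z : W b | z ∈ Om b ε \ A' ∧ z.fst ∈ S} := by ring
      _ ≤ _ := h2
      _ = _ := by ring
  exact le_of_mul_le_mul_left h3 hvb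

/-- **the conjecture fails** -/
theorem main : ¬ ∃ c : ℝ, 0 < c ∧ Pool.Agent.TH304.MI.FH c := by
  rintro ⟨c, hc, hFH⟩
  obtain ⟨b₀, hb₀⟩ := t6 c 9 hc (by norm_num)
  obtain ⟨M, hM, ht4⟩ := t4
  obtain ⟨b, hbd⟩ : ∃ b : ℕ, b = max b₀ 1000 := ⟨_, rfl⟩
  obtain ⟨hb1, h6⟩ := hb₀ b (by rw [hbd]; exact le_max_left _ _)
  have hb1000 : 1000 ≤ b := by rw [hbd]; exact le_max_right _ _
  have hbR : (1000 : ℝ) ≤ b := by exact_mod_cast hb1000
  have hbp : (0 : ℝ) < (b : ℝ) + 1 := by linarith
  obtain ⟨r, hr0, hr1, hrhalf, hr2, hnum⟩ := numerics hb1000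
  set r₀ : ℝ := 0.001 / ((b : ℝ) + 1) with hr₀
  have hr₀0 : 0 < r₀ := by positivity
  obtain ⟨σ, η, hσ0, hσ1, hη, hcone⟩ := h6 r₀ hr₀0
  have hK : ((9 : ℝ) - 1) / b = 8 / b := by norm_num
  rw [hK] at hcone
  set R₁ : ℝ := 8 / b with hR₁
  have hR₁1 : R₁ < 1 := by
    rw [hR₁, div_lt_one (by linarith)]
    linarith
  have hr₀R : r₀ < R₁ := by
    rw [hr₀, hR₁, div_lt_div_iff₀ hbp (by linarith)]
    nlinarith
  set p₀ : ℝ := 2 * π * r * (1 - r) ^ b with hp₀
  have h1r : 0 < 1 - r := by linarith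
  have hp₀0 : 0 < p₀ := by positivity
  set γ : ℝ := 0.004 / ((b : ℝ) + 1) with hγ
  have hγ0 : 0 < γ := by positivity
  -- the size of the fibres
  set T : ℝ := M / (σ * r₀) * (2 ^ (b + 1) * 2 / η + 2 ^ (b + 1) * 2 / η) with hT
  have hT0 : 0 < T := by positivity
  set ε : ℝ := γ / (2 * T) with hεd
  have hε : 0 < ε := by positivity
  have hvb := vb_pos b hε
  -- the minimizer
  set Ω : Set (W b) := Om b ε with hΩ
  set A₀ : Set (W b) := {z | z ∈ Om b ε ∧ ‖z.fst‖ < r} with hA₀
  have hΩo : IsOpen Ω := Om_open b ε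
  have hΩfin := Om_fin b hε
  have hA₀m : MeasurableSet A₀ :=
    (hΩo.inter (isOpen_lt continuous_fst'.norm continuous_const)).measurableSet
  have hA₀Ω : A₀ ⊆ Ω := fun z hz => hz.1
  have hA₀v : volume A₀ = volume Ω / 2 := by
    have h1 : volume.real A₀ = 1 / 2 * volume.real Ω := by
      rw [hA₀, vol_cyl hb1 hε hr0.le hr1.le, hrhalf, show (1 : ℝ) - 1 / 2 = 1 / 2 by norm_num]
    have h2 : volume A₀ ≠ ⊤ := measure_ne_top_of_subset hA₀Ω hΩfin
    have h3 : volume Ω / 2 ≠ ⊤ := ENNReal.div_ne_top hΩfin two_ne_zero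
    rw [← ENNReal.toReal_eq_toReal_iff' h2 h3, ENNReal.toReal_div]
    change volume.real A₀ = volume.real Ω / _
    rw [h1]
    simp
    ring
  have hP₀ : PLE Ω A₀ (vb b ε * p₀) := t3 b ε r hb1 hε hr0 hr1
  obtain ⟨A, I, hA, hAΩ, hAv, hAI, hmin⟩ := exist (W b) (t1 (W b)) Ω A₀ (vb b ε * p₀) hΩo
    (Om_convex b hε) (Om_zero b ε) (Om_bounded b hε) hA₀m hA₀Ω hP₀
  have hI : I ≤ vb b ε * p₀ := hmin A₀ _ hA₀m hA₀Ω rfl hP₀
  have hI0 : 0 ≤ I := by
    have ht : Tst Ω (fun _ : W b => (0 : W b)) := by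
      refine ⟨contDiff_const, HasCompactSupport.zero, ?_, fun x => by simp⟩
      have : tsupport (fun _ : W b => (0 : W b)) = ∅ := by
        rw [tsupport_eq_empty_iff]
        rfl
      rw [this]
      exact empty_subset _
    have h2 := hAI _ ht
    have h3 : ∀ x : W b, dv (fun _ : W b => (0 : W b)) x = 0 := by
      intro x
      unfold dv
      simp
    simp only [h3, integral_zero] at h2
    exact h2
  -- the cone
  have hfr : Module.finrank ℝ (W b) = b + 2 := by
    have h1 : Module.finrank ℝ (W b) = Module.finrank ℝ (ℂ × B b) :=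
      (WithLp.prodContinuousLinearEquiv 2 ℝ ℂ (B b)).toLinearEquiv.finrank_eq
    rw [h1, Module.finrank_prod, Complex.finrank_real_complex, finrank_euclideanSpace_fin]
    ring
  set L : W b ≃ₗᵢ[ℝ] EuclideanSpace ℝ (Fin (b + 2)) :=
    ((stdOrthonormalBasis ℝ (W b)).reindex (finCongr hfr)).repr with hL
  obtain ⟨G, hGo, hGc, hGa, hGV, hGA, hGA'⟩ := transfer hFH L Ω A I hΩo ⟨0, Om_zero b ε⟩
    (Om_convex b hε) (Om_bounded b hε) (fun x hx => Om_neg hx) hA hAΩ (hAv.trans hA₀v) hAI
    (fun F Q hF hFΩ hFv hFQ => hmin F Q hF hFΩ (hFv.trans hAv) hFQ)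
  obtain ⟨u, hu, hux⟩ := hcone ε G hε hGo hGc hGa hGV
  -- the bad volumes
  have hV1 := bad (S := Wp u σ r₀ R₁) hb1 hε hη hI0 hA hAΩ hAI (Wp_meas u σ r₀ R₁) A (Or.inl rfl)
    hGA hux
  have hV2 : volume.real {z | z ∈ A ∧ -z.fst ∈ Wp u σ r₀ R₁} ≤ 2 ^ (b + 1) * ε * I / η := by
    have h1 := bad (S := {x | -x ∈ Wp u σ r₀ R₁}) (G := Ω ∩ {z | -z ∈ G}) hb1 hε hη hI0 hA hAΩ hAI
      ((Wp_meas u σ r₀ R₁).preimage measurable_neg) (Ω \ A) (Or.inr rfl) (by
        refine measure_mono_null ?_ hGA'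
        rintro z ⟨h2, h3⟩
        refine ⟨h2, ?_⟩
        by_contra h4
        exact h3 ⟨h2.1, h4⟩) (by
        intro x hx
        have h2 := hux (-x) hx
        refine h2.trans ?_
        have h3 : fib (Ω ∩ {z | -z ∈ G}) x = Neg.neg ⁻¹' (fib (Ω ∩ G) (-x)) := by
          ext y
          change (mk x y ∈ Ω ∧ -(mk x y) ∈ G) ↔ (mk (-x) (-y) ∈ Ω ∧ mk (-x) (-y) ∈ G)
          have e : -(mk x y : W b) = mk (-x) (-y) := rfl
          rw [e]
          have e2 : mk x y ∈ Ω ↔ mk (-x) (-y) ∈ Ω := by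
            rw [hΩ, mem_Om, mem_Om, mk_fst, mk_snd, mk_fst, mk_snd, norm_neg, norm_neg]
          rw [e2]
        rw [h3, Measure.measure_preimage_neg])
    have e : {z : W b | z ∈ Ω \ (Ω \ A) ∧ z.fst ∈ {x | -x ∈ Wp u σ r₀ R₁}} =
        {z | z ∈ A ∧ -z.fst ∈ Wp u σ r₀ R₁} := by
      rw [Set.sdiff_sdiff_right_self, inter_eq_right.2 hAΩ]
      rfl
    rw [e] at h1
    exact h1
  have h4 := ht4 b ε I A u σ r₀ R₁ hb1 hε hA hAΩ hAI hu hσ0 hσ1 hr₀0 hr₀R hR₁1
  -- conclusion
  have h5 : 2 ^ (b + 1) * ε * I / η ≤ vb b ε * ε * (2 ^ (b + 1) * 2 / η) := by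
    have : I ≤ vb b ε * 2 := hI.trans (by gcongr)
    calc 2 ^ (b + 1) * ε * I / η ≤ 2 ^ (b + 1) * ε * (vb b ε * 2) / η := by gcongr
      _ = _ := by ring
  have h7 : M / (σ * r₀) * (volume.real {z | z ∈ Om b ε \ A ∧ z.fst ∈ Wp u σ r₀ R₁} +
      volume.real {z | z ∈ A ∧ -z.fst ∈ Wp u σ r₀ R₁}) ≤ vb b ε * (ε * T) := by
    calc _ ≤ M / (σ * r₀) * (vb b ε * ε * (2 ^ (b + 1) * 2 / η) +
          vb b ε * ε * (2 ^ (b + 1) * 2 / η)) := by
          gcongr
          · exact hV1.trans h5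
          · exact hV2.trans h5
      _ = _ := by rw [hT]; ring
  have h8 : ε * T = γ / 2 := by
    rw [hεd]
    field_simp
  rw [h8] at h7
  have h9 : vb b ε * (p₀ + γ) ≤ vb b ε * (2 * ∫ ρ in r₀..R₁, (1 - ρ) ^ b) := by
    gcongr
  have h10 : 0 < vb b ε * γ := by positivity
  nlinarith

end Pool.Agent.U69.CN
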