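import Mathlib

/-!
# The cone problem (MP_65ff7c_an): balls around barycentres
-/

set_option autoImplicit false

open MeasureTheory Set Metric Filter Topology
open scoped ENNReal Real

noncomputable section

namespace Pool.Agent.U69.CN

variable {E : Type*} [NormedAddCommGroup E] [InnerProductSpace ℝ E] [FiniteDimensional ℝ E]
  [MeasurableSpace E] [BorelSpace E]

/-- thin slabs have small volume -/
lemma slab {R κ : ℝ} (hR : 0 < R) (hκ : 0 < κ) : ∃ s : ℝ, 0 < s ∧ ∀ (v : E) (a : ℝ), ‖v‖ = 1 →
    volume.real {z : E | ‖z‖ ≤ R ∧ |inner ℝ v z - a| ≤ s} ≤ κ := by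
  have : ProperSpace E := FiniteDimensional.proper ℝ E
  obtain ⟨N, hN⟩ := exists_nat_gt (volume.real (closedBall (0 : E) (2 * R)) / κ)
  have hN0 : (0 : ℝ) < N := lt_of_le_of_lt (by positivity) hN
  rw [div_lt_iff₀ hκ] at hN
  refine ⟨R / (3 * N), by positivity, fun v a hv => ?_⟩
  set s := R / (3 * N) with hs
  have hs0 : 0 < s := by positivity
  have hsN : 3 * s * N = R := by rw [hs]; field_simp
  set S : Set E := {z : E | ‖z‖ ≤ R ∧ |inner ℝ v z - a| ≤ s} with hS
  have hSc : IsClosed S := by
    have c1 : Continuous fun z : E => |inner ℝ v z - a| := by fun_prop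
    exact (isClosed_le continuous_norm continuous_const).inter (isClosed_le c1 continuous_const)
  have hSm := hSc.measurableSet
  have hSfin : volume S ≠ ⊤ := by
    refine ne_top_of_le_ne_top (isCompact_closedBall (0 : E) R).measure_lt_top.ne
      (measure_mono fun z hz => ?_)
    rw [mem_closedBall_zero_iff]
    exact hz.1
  set f : ℕ → Set E := fun k => (fun z => z - (3 * s * k) • v) ⁻¹' S with hf
  have hfm : ∀ k, MeasurableSet (f k) := fun k => (measurable_id.sub_const _) hSm
  have hfv : ∀ k, volume (f k) = volume S := by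
    intro k
    have : f k = (fun z => z + (-((3 * s * k) • v))) ⁻¹' S := by
      rw [hf]
      simp only [sub_eq_add_neg]
    rw [this, measure_preimage_add_right]
  have hd : Set.Pairwise (↑(Finset.range N)) (Function.onFun Disjoint f) := by
    intro k _ l _ hkl
    rw [Function.onFun, Set.disjoint_left]
    rintro z ⟨-, h1⟩ ⟨-, h2⟩
    rw [inner_sub_right, inner_smul_right, real_inner_self_eq_norm_sq, hv] at h1 h2
    rw [abs_le] at h1 h2
    have h3 : |(k : ℝ) - l| < 1 := by
      have h4 : |3 * s * ((k : ℝ) - l)| ≤ 2 * s := by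
        rw [abs_le]
        constructor <;> nlinarith [h1.1, h1.2, h2.1, h2.2]
      rw [abs_mul, abs_of_pos (by positivity : 0 < 3 * s)] at h4
      by_contra hc
      nlinarith [not_lt.1 hc]
    have h5 : |(k : ℤ) - l| < 1 := by
      have : ((|(k : ℤ) - l| : ℤ) : ℝ) < 1 := by
        push_cast
        exact h3
      exact_mod_cast this
    rw [Int.abs_lt_one_iff] at h5
    omega
  have hu : ⋃ k ∈ Finset.range N, f k ⊆ closedBall (0 : E) (2 * R) := by
    intro z hz
    rw [mem_iUnion₂] at hz
    obtain ⟨k, hk, h1, -⟩ := hz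
    rw [mem_closedBall_zero_iff]
    have hk' : (k : ℝ) ≤ N := by exact_mod_cast (Finset.mem_range.1 hk).le
    have h2 : ‖(3 * s * k) • v‖ ≤ R := by
      rw [norm_smul, hv, mul_one, Real.norm_of_nonneg (by positivity), ← hsN]
      gcongr
    calc ‖z‖ = ‖(z - (3 * s * k) • v) + (3 * s * k) • v‖ := by rw [sub_add_cancel]
      _ ≤ ‖z - (3 * s * k) • v‖ + ‖(3 * s * k) • v‖ := norm_add_le _ _
      _ ≤ R + R := by gcongr
      _ = 2 * R := by ring
  have h1 : volume (⋃ k ∈ Finset.range N, f k) = N * volume S := by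
    rw [measure_biUnion_finset hd (fun k _ => hfm k)]
    simp [hfv]
  have h2 : (N : ℝ≥0∞) * volume S ≤ volume (closedBall (0 : E) (2 * R)) := by
    rw [← h1]
    exact measure_mono hu
  have h3 : N * volume.real S ≤ volume.real (closedBall (0 : E) (2 * R)) := by
    have := ENNReal.toReal_mono (isCompact_closedBall (0 : E) (2 * R)).measure_lt_top.ne h2
    rwa [ENNReal.toReal_mul, ENNReal.toReal_natCast] at this
  have h4 : N * volume.real S ≤ N * κ := by linarith
  exact le_of_mul_le_mul_left h4 hN0

/-- the barycentre of a convex set of volume at least `v₀` is the centre of a ball of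
controlled radius contained in the set -/
lemma bary {R v₀ : ℝ} (hR : 0 < R) (hv₀ : 0 < v₀) : ∃ ρ : ℝ, 0 < ρ ∧ ∀ C : Set E, IsOpen C →
    Convex ℝ C → C ⊆ closedBall 0 R → v₀ ≤ volume.real C →
    ball ((volume.real C)⁻¹ • ∫ z in C, z) ρ ⊆ C := by
  have : ProperSpace E := FiniteDimensional.proper ℝ E
  obtain ⟨s, hs, hslab⟩ := slab (E := E) hR (half_pos hv₀)
  refine ⟨s / 2, by positivity, fun C hCo hCc hCb hCv q hq => ?_⟩
  by_contra hqC
  have hCpos : 0 < volume.real C := lt_of_lt_of_le hv₀ hCv
  set V := volume.real C with hV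
  set g : E := V⁻¹ • ∫ z in C, z with hg
  have hCfin : volume C ≠ ⊤ := ne_top_of_le_ne_top
    (isCompact_closedBall (0 : E) R).measure_lt_top.ne (measure_mono hCb)
  obtain ⟨f, hf⟩ := geometric_hahn_banach_open_point hCc hCo hqC
  obtain ⟨z₀, hz₀⟩ : C.Nonempty := by
    by_contra hc
    rw [not_nonempty_iff_eq_empty] at hc
    rw [hV, hc] at hCpos
    simp at hCpos
  set v₁ : E := (InnerProductSpace.toDual ℝ E).symm f with hv₁
  have hfv : ∀ z, f z = inner ℝ v₁ z := fun z => by
    rw [hv₁, InnerProductSpace.toDual_symm_apply]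
  have hv₁0 : v₁ ≠ 0 := by
    intro h
    have := hf z₀ hz₀
    rw [hfv, hfv, h, inner_zero_left, inner_zero_left] at this
    exact lt_irrefl _ this
  have hn : 0 < ‖v₁‖ := norm_pos_iff.2 hv₁0
  set v : E := ‖v₁‖⁻¹ • v₁ with hv
  have hvn : ‖v‖ = 1 := by
    rw [hv, norm_smul, norm_inv, norm_norm, inv_mul_cancel₀ hn.ne']
  have hfv' : ∀ z ∈ C, inner ℝ v z < inner ℝ v q := by
    intro z hz
    have := hf z hz
    rw [hfv, hfv] at this
    rw [hv, real_inner_smul_left, real_inner_smul_left]
    exact mul_lt_mul_of_pos_left this (inv_pos.2 hn)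
  set a : ℝ := inner ℝ v g with ha
  have hqa : inner ℝ v q < a + s / 2 := by
    have h1 : inner ℝ v q = a + inner ℝ v (q - g) := by rw [inner_sub_right]; ring
    have h2 : inner ℝ v (q - g) ≤ ‖v‖ * ‖q - g‖ := real_inner_le_norm _ _
    rw [mem_ball, dist_eq_norm] at hq
    rw [hvn, one_mul] at h2
    linarith
  have hidi : IntegrableOn (fun z : E => z) C := by
    refine Measure.integrableOn_of_bounded (M := R) hCfin
      aestronglyMeasurable_id ?_
    refine (ae_restrict_iff' hCo.measurableSet).2 (Eventually.of_forall fun z hz => ?_)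
    have := hCb hz
    rwa [mem_closedBall_zero_iff] at this
  have hci : ∀ r : ℝ, Integrable (fun _ : E => r) (volume.restrict C) := fun r =>
    integrableOn_const hCfin enorm_ne_top
  have hTi : IntegrableOn (fun z : E => inner ℝ v z - a) C :=
    (hidi.const_inner v).sub (hci a)
  have hT0 : ∫ z in C, (inner ℝ v z - a) = 0 := by
    rw [integral_sub (hidi.const_inner v) (hci a),
      integral_inner hidi, setIntegral_const, smul_eq_mul, ha, hg, inner_smul_right, ← mul_assoc,
      ← hV, mul_inv_cancel₀ hCpos.ne', one_mul, sub_self]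
  -- the part far below
  set C₁ : Set E := C ∩ {z | inner ℝ v z - a < -s} with hC₁
  have hC₁m : MeasurableSet C₁ := by
    refine hCo.measurableSet.inter (isOpen_lt ?_ continuous_const).measurableSet
    fun_prop
  have hC₁v : V / 2 ≤ volume.real C₁ := by
    have h1 : volume.real (C \ C₁) ≤ v₀ / 2 := by
      refine le_trans (measureReal_mono ?_ ?_) (hslab v a hvn)
      · rintro z ⟨h2, h3⟩
        refine ⟨?_, ?_⟩
        · have := hCb h2
          rwa [mem_closedBall_zero_iff] at this
        · have h4 : ¬ inner ℝ v z - a < -s := fun h4 => h3 ⟨h2, h4⟩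
          rw [abs_le]
          have := hfv' z h2
          constructor <;> linarith [not_lt.1 h4]
      · refine ne_top_of_le_ne_top (isCompact_closedBall (0 : E) R).measure_lt_top.ne
          (measure_mono fun z hz => ?_)
        rw [mem_closedBall_zero_iff]
        exact hz.1
    have h2 : volume.real C = volume.real (C ∩ C₁) + volume.real (C \ C₁) :=
      (measureReal_inter_add_sdiff hC₁m hCfin).symm
    have h3 : C ∩ C₁ = C₁ := inter_eq_right.2 inter_subset_left
    rw [h3] at h2
    linarith
  have h5 : ∫ z in C, (inner ℝ v z - a) ≤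
      ∫ z in C, (s / 2 + C₁.indicator (fun _ => -(s + s / 2)) z) := by
    refine setIntegral_mono_on hTi ?_ hCo.measurableSet fun z hz => ?_
    · exact (hci _).add ((hci _).indicator hC₁m)
    · by_cases h6 : z ∈ C₁
      · rw [indicator_of_mem h6]
        have : inner ℝ v z - a < -s := h6.2
        linarith
      · rw [indicator_of_notMem h6]
        have := hfv' z hz
        linarith
  rw [hT0, integral_add (hci _) ((hci _).indicator hC₁m), setIntegral_const,
    setIntegral_indicator hC₁m, setIntegral_const, smul_eq_mul, smul_eq_mul,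
    inter_eq_right.2 (inter_subset_left : C₁ ⊆ C), ← hV] at h5
  nlinarith

end Pool.Agent.U69.CN
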