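import Pool.Agent.TH703.Cone.Exist
import Pool.Agent.TH703.Cone.Div
import Pool.Agent.TH703.Cone.Trans

/-!
# The cone problem (MP_65ff7c_an): basics of the body, Fubini, fibres
-/

set_option autoImplicit false

open MeasureTheory Set Metric Filter Topology
open scoped ENNReal Real

noncomputable section

namespace Pool.Agent.U69.CN

open Pool.Agent.TH703.Cone

variable {b : ℕ}

/-! ### coordinates -/

/-- the point with coordinates `x`, `y` -/
def mk (x : ℂ) (y : B b) : W b := WithLp.toLp 2 (x, y)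

@[simp] lemma mk_fst (x : ℂ) (y : B b) : (mk x y).fst = x := rfl
@[simp] lemma mk_snd (x : ℂ) (y : B b) : (mk x y).snd = y := rfl

lemma mk_eta (z : W b) : mk z.fst z.snd = z := rfl

lemma continuous_mk : Continuous fun p : ℂ × B b => mk p.1 p.2 :=
  WithLp.prod_continuous_toLp 2 ℂ (B b)

lemma continuous_fst' : Continuous fun z : W b => z.fst :=
  continuous_fst.comp (WithLp.prod_continuous_ofLp 2 ℂ (B b))

lemma continuous_snd' : Continuous fun z : W b => z.snd :=
  continuous_snd.comp (WithLp.prod_continuous_ofLp 2 ℂ (B b))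

lemma norm_mk_sq (x : ℂ) (y : B b) : ‖mk x y‖ ^ 2 = ‖x‖ ^ 2 + ‖y‖ ^ 2 := by
  rw [WithLp.prod_norm_sq_eq_of_L2]
  rfl

lemma norm_mk_zero (y : B b) : ‖mk (0 : ℂ) y‖ = ‖y‖ := by
  have h := norm_mk_sq (0 : ℂ) y
  rw [norm_zero] at h
  have : ‖mk (0 : ℂ) y‖ ^ 2 = ‖y‖ ^ 2 := by rw [h]; ring
  exact (sq_eq_sq₀ (norm_nonneg _) (norm_nonneg _)).1 this

lemma norm_mk_zero' (x : ℂ) : ‖mk x (0 : B b)‖ = ‖x‖ := by
  have h := norm_mk_sq x (0 : B b)
  rw [norm_zero] at h
  have : ‖mk x (0 : B b)‖ ^ 2 = ‖x‖ ^ 2 := by rw [h]; ring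
  exact (sq_eq_sq₀ (norm_nonneg _) (norm_nonneg _)).1 this

lemma norm_fst_le (z : W b) : ‖z.fst‖ ≤ ‖z‖ := by
  have h := norm_mk_sq z.fst z.snd
  rw [mk_eta] at h
  exact abs_le_of_sq_le_sq' (by nlinarith [sq_nonneg ‖z.snd‖]) (norm_nonneg _) |>.2

lemma norm_snd_le (z : W b) : ‖z.snd‖ ≤ ‖z‖ := by
  have h := norm_mk_sq z.fst z.snd
  rw [mk_eta] at h
  exact abs_le_of_sq_le_sq' (by nlinarith [sq_nonneg ‖z.fst‖]) (norm_nonneg _) |>.2

lemma mp_mk : MeasurePreserving (fun p : ℂ × B b => mk p.1 p.2)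
    ((volume : Measure ℂ).prod (volume : Measure (B b))) volume :=
  WithLp.volume_preserving_toLp ℂ (B b)

lemma measurableEmbedding_mk : MeasurableEmbedding (fun p : ℂ × B b => mk p.1 p.2) :=
  (MeasurableEquiv.toLp 2 (ℂ × B b)).measurableEmbedding

/-- Tonelli -/
lemma lint (F : W b → ℝ≥0∞) (hF : Measurable F) :
    ∫⁻ z, F z = ∫⁻ x : ℂ, ∫⁻ y : B b, F (mk x y) := by
  rw [← mp_mk.lintegral_comp hF]
  exact lintegral_prod _ (hF.comp continuous_mk.measurable).aemeasurable

/-- Fubini -/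
lemma integ (F : W b → ℝ) (hF : Integrable F) :
    ∫ z, F z = ∫ x : ℂ, ∫ y : B b, F (mk x y) := by
  rw [← mp_mk.integral_comp measurableEmbedding_mk F]
  exact integral_prod _ ((mp_mk.integrable_comp_emb measurableEmbedding_mk).2 hF)

lemma integ' (F : W b → ℝ) (hF : Integrable F) :
    ∫ z, F z = ∫ y : B b, ∫ x : ℂ, F (mk x y) := by
  rw [← mp_mk.integral_comp measurableEmbedding_mk F]
  exact integral_prod_symm _ ((mp_mk.integrable_comp_emb measurableEmbedding_mk).2 hF)

lemma measurableSet_fib {A : Set (W b)} (hA : MeasurableSet A) (x : ℂ) :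
    MeasurableSet (fib A x) :=
  (continuous_mk.comp (by fun_prop : Continuous fun y : B b => (x, y))).measurable hA

lemma vol_eq {A : Set (W b)} (hA : MeasurableSet A) :
    volume A = ∫⁻ x : ℂ, volume (fib A x) := by
  have h := lint (A.indicator fun _ => (1 : ℝ≥0∞)) (measurable_const.indicator hA)
  rw [lintegral_indicator hA, setLIntegral_one] at h
  rw [h]
  refine lintegral_congr fun x => ?_
  have : (fun y : B b => A.indicator (fun _ => (1 : ℝ≥0∞)) (mk x y)) =
      (fib A x).indicator fun _ => 1 := by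
    funext y
    by_cases hy : mk x y ∈ A
    · rw [indicator_of_mem hy, indicator_of_mem (show y ∈ fib A x from hy)]
    · rw [indicator_of_notMem hy, indicator_of_notMem (show y ∉ fib A x from hy)]
  rw [this, lintegral_indicator (measurableSet_fib hA x), setLIntegral_one]

lemma measurable_vol_fib {A : Set (W b)} (hA : MeasurableSet A) :
    Measurable fun x : ℂ => volume (fib A x) := by
  have h : MeasurableSet {p : ℂ × B b | mk p.1 p.2 ∈ A} := continuous_mk.measurable hA
  exact measurable_measure_prodMk_left h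

/-! ### the body -/

lemma Om_open (b : ℕ) (ε : ℝ) : IsOpen (Om b ε) :=
  isOpen_lt ((continuous_fst'.norm).add (continuous_snd'.norm.div_const _)) continuous_const

lemma mem_Om {ε : ℝ} {z : W b} : z ∈ Om b ε ↔ ‖z.fst‖ + ‖z.snd‖ / ε < 1 := Iff.rfl

lemma mem_Om_iff {ε : ℝ} (hε : 0 < ε) {x : ℂ} {y : B b} :
    mk x y ∈ Om b ε ↔ ‖y‖ < (1 - ‖x‖) * ε := by
  rw [mem_Om, mk_fst, mk_snd, ← lt_sub_iff_add_lt', div_lt_iff₀ hε]

lemma Om_convex (b : ℕ) {ε : ℝ} (hε : 0 < ε) : Convex ℝ (Om b ε) := by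
  intro z hz w hw s t hs ht hst
  rw [mem_Om] at hz hw ⊢
  have h1 : ‖(s • z + t • w).fst‖ ≤ s * ‖z.fst‖ + t * ‖w.fst‖ := by
    rw [WithLp.add_fst, WithLp.smul_fst, WithLp.smul_fst]
    refine (norm_add_le _ _).trans ?_
    rw [norm_smul, norm_smul, Real.norm_of_nonneg hs, Real.norm_of_nonneg ht]
  have h2 : ‖(s • z + t • w).snd‖ ≤ s * ‖z.snd‖ + t * ‖w.snd‖ := by
    rw [WithLp.add_snd, WithLp.smul_snd, WithLp.smul_snd]
    refine (norm_add_le _ _).trans ?_
    rw [norm_smul, norm_smul, Real.norm_of_nonneg hs, Real.norm_of_nonneg ht]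
  have h3 : ‖(s • z + t • w).snd‖ / ε ≤ s * (‖z.snd‖ / ε) + t * (‖w.snd‖ / ε) := by
    rw [← mul_div_assoc, ← mul_div_assoc, ← add_div]
    gcongr
  have h4 : s * (‖z.fst‖ + ‖z.snd‖ / ε) + t * (‖w.fst‖ + ‖w.snd‖ / ε) < 1 := by
    rcases hs.eq_or_lt with rfl | hs'
    · have : t = 1 := by linarith
      subst this
      linarith
    · nlinarith
  nlinarith

lemma Om_bounded (b : ℕ) {ε : ℝ} (hε : 0 < ε) : Bornology.IsBounded (Om b ε) := by
  refine (isBounded_closedBall (x := (0 : W b)) (r := 1 + ε)).subset fun z hz => ?_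
  rw [mem_closedBall_zero_iff]
  rw [mem_Om] at hz
  have h0 : 0 ≤ ‖z.snd‖ / ε := by positivity
  have h1 : ‖z.fst‖ ≤ 1 := by linarith [norm_nonneg z.fst]
  have h2 : ‖z.snd‖ ≤ ε := by
    have : ‖z.snd‖ / ε ≤ 1 := by linarith [norm_nonneg z.fst]
    rwa [div_le_one hε] at this
  have h3 := norm_mk_sq z.fst z.snd
  rw [mk_eta] at h3
  have h4 : ‖z‖ ^ 2 ≤ (1 + ε) ^ 2 := by
    rw [h3]
    nlinarith [norm_nonneg z.fst, norm_nonneg z.snd]
  exact le_of_sq_le_sq h4 (by positivity)

lemma Om_zero (b : ℕ) (ε : ℝ) : (0 : W b) ∈ Om b ε := by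
  rw [mem_Om]
  simp

lemma Om_neg {ε : ℝ} {z : W b} (hz : z ∈ Om b ε) : -z ∈ Om b ε := by
  rw [mem_Om] at hz ⊢
  simpa using hz

lemma Om_fin (b : ℕ) {ε : ℝ} (hε : 0 < ε) : volume (Om b ε) ≠ ⊤ :=
  (Om_bounded b hε).measure_lt_top.ne

lemma Om_norm_lt {ε : ℝ} (hε : 0 < ε) {z : W b} (hz : z ∈ Om b ε) : ‖z.fst‖ < 1 := by
  rw [mem_Om] at hz
  have h0 : 0 ≤ ‖z.snd‖ / ε := by positivity
  linarith

lemma Om_snd_lt {ε : ℝ} (hε : 0 < ε) {z : W b} (hz : z ∈ Om b ε) : ‖z.snd‖ < ε := by
  rw [mem_Om] at hz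
  have h0 := norm_nonneg z.fst
  have : ‖z.snd‖ / ε < 1 := by linarith
  rwa [div_lt_one hε] at this

lemma vb_pos (b : ℕ) {ε : ℝ} (hε : 0 < ε) : 0 < vb b ε :=
  ENNReal.toReal_pos (measure_ball_pos volume _ hε).ne' measure_ball_lt_top.ne

lemma ofReal_vb (b : ℕ) (ε : ℝ) : ENNReal.ofReal (vb b ε) = volume (ball (0 : B b) ε) :=
  ENNReal.ofReal_toReal measure_ball_lt_top.ne

lemma fib_Om {ε : ℝ} (hε : 0 < ε) (x : ℂ) :
    fib (Om b ε) x = ball (0 : B b) ((1 - ‖x‖) * ε) := by
  ext y
  rw [mem_ball_zero_iff]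
  exact mem_Om_iff hε

lemma vol_ball_mul {ε t : ℝ} (ht : 0 ≤ t) (hb : 1 ≤ b) :
    volume (ball (0 : B b) (t * ε)) = ENNReal.ofReal (vb b ε) * ENNReal.ofReal (t ^ b) := by
  rcases ht.eq_or_lt with rfl | ht
  · have hb' : b ≠ 0 := by omega
    simp [hb']
  · rw [ofReal_vb, Measure.addHaar_ball_mul_of_pos volume (0 : B b) ht ε, mul_comm]
    congr 2
    simp [B]

lemma vol_fib_Om {ε : ℝ} (hε : 0 < ε) (hb : 1 ≤ b) (x : ℂ) :
    volume (fib (Om b ε) x) = (ball (0 : ℂ) 1).indicator
      (fun x => ENNReal.ofReal (vb b ε) * ENNReal.ofReal ((1 - ‖x‖) ^ b)) x := by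
  rw [fib_Om hε]
  by_cases hx : x ∈ ball (0 : ℂ) 1
  · rw [indicator_of_mem hx]
    rw [mem_ball_zero_iff] at hx
    exact vol_ball_mul (by linarith) hb
  · rw [indicator_of_notMem hx]
    rw [mem_ball_zero_iff, not_lt] at hx
    rw [ball_eq_empty.2 (by nlinarith), measure_empty]

/-! ### T5 -/

theorem t5 : S_T5 := by
  intro b ε P A hb hε hA hAΩ hP hPLE
  set Ω := Om b ε with hΩ
  have hΩm : MeasurableSet Ω := (Om_open b ε).measurableSet
  have hDm : MeasurableSet (Ω \ A) := hΩm.diff hA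
  -- the set of pairs
  set F : ℂ → B b → B b → ℝ≥0∞ := fun x v y =>
    A.indicator (fun _ => 1) (mk x y) * (Ω \ A).indicator (fun _ => 1) (mk x (y + v)) with hF
  have hmF : Measurable fun p : (ℂ × B b) × B b => F p.1.1 p.1.2 p.2 := by
    refine Measurable.mul ?_ ?_
    · exact (measurable_const.indicator hA).comp
        (continuous_mk.comp (by fun_prop : Continuous fun p : (ℂ × B b) × B b =>
          (p.1.1, p.2))).measurable
    · exact (measurable_const.indicator hDm).comp
        (continuous_mk.comp (by fun_prop : Continuous fun p : (ℂ × B b) × B b =>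
          (p.1.1, p.2 + p.1.2))).measurable
  have hmF2 : ∀ x, Measurable fun p : B b × B b => F x p.1 p.2 := fun x =>
    hmF.comp (by fun_prop : Measurable fun p : B b × B b => ((x, p.1), p.2))
  have hmF3 : ∀ x v, Measurable (F x v) := fun x v =>
    hmF.comp (by fun_prop : Measurable fun y : B b => ((x, v), y))
  have h1 : ∀ x : ℂ, volume (fib A x) * volume (fib (Ω \ A) x) = ∫⁻ v, ∫⁻ y, F x v y := by
    intro x
    have e1 : ∀ S : Set (W b), MeasurableSet S →
        volume (fib S x) = ∫⁻ y : B b, S.indicator (fun _ => (1 : ℝ≥0∞)) (mk x y) := by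
      intro S hS
      have : (fun y : B b => S.indicator (fun _ => (1 : ℝ≥0∞)) (mk x y)) =
          (fib S x).indicator fun _ => 1 := by
        funext y
        by_cases hy : mk x y ∈ S
        · rw [indicator_of_mem hy, indicator_of_mem (show y ∈ fib S x from hy)]
        · rw [indicator_of_notMem hy, indicator_of_notMem (show y ∉ fib S x from hy)]
      rw [this, lintegral_indicator (measurableSet_fib hS x), setLIntegral_one]
    have hcA : Measurable fun y : B b => A.indicator (fun _ => (1 : ℝ≥0∞)) (mk x y) :=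
      (measurable_const.indicator hA).comp
        (continuous_mk.comp (by fun_prop : Continuous fun y : B b => (x, y))).measurable
    have hcD : Measurable fun y : B b => (Ω \ A).indicator (fun _ => (1 : ℝ≥0∞)) (mk x y) :=
      (measurable_const.indicator hDm).comp
        (continuous_mk.comp (by fun_prop : Continuous fun y : B b => (x, y))).measurable
    rw [lintegral_lintegral_swap (hmF2 x).aemeasurable, e1 A hA, ← lintegral_mul_const _ hcA]
    refine lintegral_congr fun y => ?_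
    rw [hF]
    simp only
    rw [lintegral_const_mul]
    · congr 1
      rw [e1 _ hDm]
      exact (lintegral_add_left_eq_self _ y).symm
    · exact hcD.comp (by fun_prop)
  simp_rw [h1]
  have h2 : ∫⁻ x : ℂ, ∫⁻ v : B b, ∫⁻ y : B b, F x v y = ∫⁻ v : B b, ∫⁻ x : ℂ, ∫⁻ y : B b, F x v y := by
    refine lintegral_lintegral_swap ?_
    exact (hmF.lintegral_prod_right' (f := fun p : (ℂ × B b) × B b => F p.1.1 p.1.2 p.2)).aemeasurable
  rw [h2]
  have h3 : ∀ v : B b, ∫⁻ x : ℂ, ∫⁻ y : B b, F x v y =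
      volume {z | z ∈ A ∧ z + mk 0 v ∈ Ω \ A} := by
    intro v
    have hm : MeasurableSet {z : W b | z ∈ A ∧ z + mk 0 v ∈ Ω \ A} :=
      hA.inter ((measurable_id.add_const (mk 0 v)) hDm)
    rw [vol_eq hm]
    refine lintegral_congr fun x => ?_
    rw [← setLIntegral_one, ← lintegral_indicator (measurableSet_fib hm x)]
    refine lintegral_congr fun y => ?_
    have e : mk x y + mk 0 v = mk x (y + v) := by
      change WithLp.toLp 2 ((x, y) + (0, v)) = _
      rw [Prod.mk_add_mk, add_zero]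
      rfl
    rw [hF]
    simp only
    by_cases h1 : mk x y ∈ A
    · by_cases h2 : mk x (y + v) ∈ Ω \ A
      · rw [indicator_of_mem h1, indicator_of_mem h2, indicator_of_mem, mul_one]
        exact ⟨h1, by rw [← e] at h2; exact h2⟩
      · rw [indicator_of_mem h1, indicator_of_notMem h2, indicator_of_notMem, mul_zero]
        intro h3
        apply h2
        rw [← e]
        exact h3.2
    · rw [indicator_of_notMem h1, zero_mul, indicator_of_notMem]
      exact fun h3 => h1 h3.1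
  simp_rw [h3]
  calc ∫⁻ v : B b, volume {z | z ∈ A ∧ z + mk 0 v ∈ Ω \ A}
      ≤ ∫⁻ v : B b, (ball (0 : B b) (2 * ε)).indicator
          (fun _ => ENNReal.ofReal (2 * ε * P)) v := by
        refine lintegral_mono fun v => ?_
        by_cases hv : v ∈ ball (0 : B b) (2 * ε)
        · rw [indicator_of_mem hv]
          rw [mem_ball_zero_iff] at hv
          refine (t1 (W b) Ω A P (mk 0 v) (Om_open b ε) (Om_convex b hε) (Om_bounded b hε) hA hAΩ
            hP hPLE).trans (ENNReal.ofReal_le_ofReal ?_)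
          rw [norm_mk_zero]
          gcongr
        · rw [indicator_of_notMem hv]
          rw [mem_ball_zero_iff, not_lt] at hv
          rw [nonpos_iff_eq_zero]
          convert measure_empty (μ := (volume : Measure (W b)))
          ext z
          simp only [mem_ofPred_eq, mem_empty_iff_false, iff_false]
          rintro ⟨h4, h5⟩
          have h6 := Om_snd_lt hε (hAΩ h4)
          have h7 := Om_snd_lt hε h5.1
          have h8 : v = (z + mk 0 v).snd - z.snd := by
            rw [WithLp.add_snd, mk_snd, add_sub_cancel_left]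
          have h9 : ‖v‖ ≤ ‖(z + mk 0 v).snd‖ + ‖z.snd‖ := by
            conv_lhs => rw [h8]
            exact norm_sub_le _ _
          linarith
    _ = ENNReal.ofReal (2 * ε * P) * volume (ball (0 : B b) (2 * ε)) := by
        rw [lintegral_indicator measurableSet_ball, setLIntegral_const]
    _ = ENNReal.ofReal (2 ^ (b + 1) * ε * vb b ε * P) := by
        rw [vol_ball_mul (by norm_num) hb, ← ENNReal.ofReal_mul (vb_pos b hε).le,
          ← ENNReal.ofReal_mul (by positivity)]
        congr 1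
        ring

end Pool.Agent.U69.CN
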