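import Pool.Agent.U69.CN.T4
import Pool.Agent.U69.CN.Bary

/-!
# The cone problem (MP_65ff7c_an): second moments
-/

set_option autoImplicit false

open MeasureTheory Set Metric Filter Topology
open scoped ENNReal Real

noncomputable section

namespace Pool.Agent.U69.CN

open Pool.Agent.TH703.Cone

variable {b : ℕ}

lemma int_cont {F : Type*} [NormedAddCommGroup F] {ε : ℝ} (hε : 0 < ε) {S : Set (W b)}
    (hS : S ⊆ Om b ε) {f : W b → F} (hf : Continuous f) : IntegrableOn f S := by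
  obtain ⟨R, hR⟩ := (Om_bounded b hε).subset_closedBall 0
  exact (hf.continuousOn.integrableOn_compact (isCompact_closedBall (0 : W b) R)).mono_set
    (hS.trans hR)

/-- the second moment in the direction `e` -/
def Q (b : ℕ) (e : B b) : ℝ := ∫ z in Om b 1, inner ℝ e z.snd ^ 2

lemma Q_isom (T : B b ≃ₗᵢ[ℝ] B b) (e : B b) : Q b (T e) = Q b e := by
  unfold Q
  set L : W b ≃ₗᵢ[ℝ] W b := LinearIsometryEquiv.withLpProdCongr 2
    (LinearIsometryEquiv.refl ℝ ℂ) T with hL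
  have h1 : ∀ z : W b, (L z).fst = z.fst := fun z => rfl
  have h2 : ∀ z : W b, (L z).snd = T z.snd := fun z => rfl
  have hΩm := (Om_open b 1).measurableSet
  rw [← integral_indicator hΩm, ← integral_indicator hΩm,
    ← L.measurePreserving.integral_comp L.toHomeomorph.measurableEmbedding]
  refine integral_congr_ae (Eventually.of_forall fun z => ?_)
  have h3 : L z ∈ Om b 1 ↔ z ∈ Om b 1 := by
    rw [mem_Om, mem_Om, h1, h2, T.norm_map]
  simp only
  by_cases hz : z ∈ Om b 1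
  · rw [indicator_of_mem (h3.2 hz), indicator_of_mem hz, h2, T.inner_map_map]
  · rw [indicator_of_notMem (fun h => hz (h3.1 h)), indicator_of_notMem hz]

lemma Q_norm {e e' : B b} (h : ‖e‖ = ‖e'‖) : Q b e = Q b e' := by
  have h1 := Q_isom ((ℝ ∙ (e - e'))ᗮ).reflection e
  rw [Submodule.reflection_sub h] at h1
  exact h1.symm

lemma Q_smul (r : ℝ) (e : B b) : Q b (r • e) = r ^ 2 * Q b e := by
  unfold Q
  rw [← integral_const_mul]
  congr 1
  funext z
  rw [real_inner_smul_left]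
  ring

/-- the second moments -/
lemma Q_le (hb : 1 ≤ b) (e : B b) : Q b e ≤ ‖e‖ ^ 2 / b * volume.real (Om b 1) := by
  have hb0 : (0 : ℝ) < b := by exact_mod_cast hb
  have hΩm := (Om_open b 1).measurableSet
  have h1 : ∀ i : Fin b, Q b e = ‖e‖ ^ 2 * Q b (EuclideanSpace.basisFun (Fin b) ℝ i) := by
    intro i
    rw [← Q_smul]
    apply Q_norm
    rw [norm_smul, norm_norm, OrthonormalBasis.norm_eq_one, mul_one]
  have h2 : (b : ℝ) * Q b e = ‖e‖ ^ 2 * ∑ i, Q b (EuclideanSpace.basisFun (Fin b) ℝ i) := by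
    rw [Finset.mul_sum, ← Finset.sum_congr rfl fun i _ => h1 i]
    simp
  have h3 : ∑ i, Q b (EuclideanSpace.basisFun (Fin b) ℝ i) = ∫ z in Om b 1, ‖z.snd‖ ^ 2 := by
    unfold Q
    rw [← integral_finsetSum]
    · refine setIntegral_congr_fun hΩm fun z _ => ?_
      exact (OrthonormalBasis.sum_sq_inner_right (EuclideanSpace.basisFun (Fin b) ℝ) z.snd)
    · intro i _
      exact int_cont one_pos subset_rfl
        ((continuous_const.inner continuous_snd').pow 2)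
  have h4 : ∫ z in Om b 1, ‖z.snd‖ ^ 2 ≤ volume.real (Om b 1) := by
    calc _ ≤ ∫ _z in Om b 1, (1 : ℝ) := by
          refine setIntegral_mono_on (int_cont one_pos subset_rfl (continuous_snd'.norm.pow 2))
            (integrableOn_const (Om_fin b one_pos) enorm_ne_top) hΩm fun z hz => ?_
          have := Om_snd_lt one_pos hz
          nlinarith [norm_nonneg z.snd]
      _ = _ := by rw [setIntegral_const, smul_eq_mul, mul_one]
  rw [div_mul_eq_mul_div, le_div_iff₀ hb0, mul_comm (Q b e), h2, h3]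
  exact mul_le_mul_of_nonneg_left h4 (sq_nonneg _)

/-- the mean of `y` over a subset of the body is small -/
lemma mean_snd (hb : 1 ≤ b) {C : Set (W b)} (hC : MeasurableSet C) (hCΩ : C ⊆ Om b 1)
    (hv : 0 < volume.real C) :
    ‖(volume.real C)⁻¹ • ∫ z in C, z.snd‖ ^ 2 ≤ volume.real (Om b 1) / (b * volume.real C) := by
  have hb0 : (0 : ℝ) < b := by exact_mod_cast hb
  set v := volume.real C with hvd
  set V := volume.real (Om b 1) with hV
  set Y : B b := v⁻¹ • ∫ z in C, z.snd with hY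
  have hV0 : 0 ≤ V := measureReal_nonneg
  by_cases hY0 : ‖Y‖ = 0
  · rw [hY0, zero_pow two_ne_zero]
    positivity
  have hYp : 0 < ‖Y‖ ^ 2 := by positivity
  have hi : IntegrableOn (fun z : W b => z.snd) C := int_cont one_pos hCΩ continuous_snd'
  have h1 : v * ‖Y‖ ^ 2 = ∫ z in C, inner ℝ Y z.snd := by
    have e : inner ℝ Y Y = inner ℝ Y (v⁻¹ • ∫ z in C, z.snd) := by rw [← hY]
    rw [← real_inner_self_eq_norm_sq, e, inner_smul_right, ← integral_inner hi]
    rw [← mul_assoc, mul_inv_cancel₀ hv.ne', one_mul]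
  have hc1 : Continuous fun z : W b => inner ℝ Y z.snd := continuous_const.inner continuous_snd'
  have h2 : ∫ z in C, inner ℝ Y z.snd ≤
      ∫ z in C, (‖Y‖ ^ 2 / 2 + (2 * ‖Y‖ ^ 2)⁻¹ * inner ℝ Y z.snd ^ 2) := by
    refine setIntegral_mono_on (int_cont one_pos hCΩ hc1) ?_ hC fun z _ => ?_
    · exact int_cont one_pos hCΩ (continuous_const.add (continuous_const.mul (hc1.pow 2)))
    · set p : ℝ := inner ℝ Y z.snd with hp
      have h3 : 0 ≤ (‖Y‖ ^ 2 - p) ^ 2 / (2 * ‖Y‖ ^ 2) := by positivity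
      have h4 : (‖Y‖ ^ 2 - p) ^ 2 / (2 * ‖Y‖ ^ 2) =
          ‖Y‖ ^ 2 / 2 + (2 * ‖Y‖ ^ 2)⁻¹ * p ^ 2 - p := by
        field_simp
        ring
      linarith
  have h3 : ∫ z in C, (‖Y‖ ^ 2 / 2 + (2 * ‖Y‖ ^ 2)⁻¹ * inner ℝ Y z.snd ^ 2) =
      v * (‖Y‖ ^ 2 / 2) + (2 * ‖Y‖ ^ 2)⁻¹ * ∫ z in C, inner ℝ Y z.snd ^ 2 := by
    rw [integral_add, setIntegral_const, smul_eq_mul, integral_const_mul]
    · exact int_cont one_pos hCΩ continuous_const
    · exact int_cont one_pos hCΩ (continuous_const.mul (hc1.pow 2))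
  have h4 : ∫ z in C, inner ℝ Y z.snd ^ 2 ≤ ‖Y‖ ^ 2 / b * V := by
    refine le_trans ?_ (Q_le hb Y)
    refine setIntegral_mono_set (int_cont one_pos subset_rfl (hc1.pow 2))
      (Eventually.of_forall fun z => sq_nonneg _) (LE.le.eventuallyLE hCΩ)
  have h5 : (2 * ‖Y‖ ^ 2)⁻¹ * ∫ z in C, inner ℝ Y z.snd ^ 2 ≤
      (2 * ‖Y‖ ^ 2)⁻¹ * (‖Y‖ ^ 2 / b * V) := by gcongr
  have h6 : (2 * ‖Y‖ ^ 2)⁻¹ * (‖Y‖ ^ 2 / b * V) = V / b / 2 := by
    field_simp
  rw [le_div_iff₀ (by positivity)]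
  have h7 : v * ‖Y‖ ^ 2 ≤ V / b := by
    rw [h6] at h5
    rw [h3] at h2
    nlinarith
  rw [le_div_iff₀ hb0] at h7
  nlinarith

/-! ### volumes -/

lemma vol_Om {ε : ℝ} (hb : 1 ≤ b) (hε : 0 < ε) :
    volume.real (Om b ε) = vb b ε * (2 * π * (1 / ((b + 1) * (b + 2)))) := by
  have h := t7b b ε 1 hb hε zero_le_one le_rfl
  have e : {z : W b | z ∈ Om b ε ∧ ‖z.fst‖ < 1} = Om b ε := by
    ext z
    exact ⟨fun h => h.1, fun h => ⟨h, Om_norm_lt hε h⟩⟩
  rw [e] at h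
  unfold Measure.real
  rw [h]
  have := vb_pos b hε
  simp only [sub_self, ne_eq, Nat.add_eq_zero_iff, one_ne_zero, and_false, not_false_eq_true,
    zero_pow, zero_mul, sub_zero]
  rw [ENNReal.toReal_ofReal (by positivity)]

lemma vol_Om_pos {ε : ℝ} (hb : 1 ≤ b) (hε : 0 < ε) : 0 < volume.real (Om b ε) := by
  rw [vol_Om hb hε]
  have := vb_pos b hε
  positivity

lemma vol_cyl {ε r : ℝ} (hb : 1 ≤ b) (hε : 0 < ε) (hr : 0 ≤ r) (hr1 : r ≤ 1) :
    volume.real {z : W b | z ∈ Om b ε ∧ ‖z.fst‖ < r} =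
      (1 - (1 - r) ^ (b + 1) * (1 + (b + 1) * r)) * volume.real (Om b ε) := by
  have h := t7b b ε r hb hε hr hr1
  have h0 : 0 ≤ 1 - (1 - r) ^ (b + 1) * (1 + ((b : ℝ) + 1) * r) := by
    have h1 := one_add_mul_le_pow (a := r) (by linarith) (b + 1)
    push_cast at h1
    have h2 : (1 - r) ^ (b + 1) * (1 + ((b : ℝ) + 1) * r) ≤ 1 := by
      calc (1 - r) ^ (b + 1) * (1 + ((b : ℝ) + 1) * r) ≤ (1 - r) ^ (b + 1) * (1 + r) ^ (b + 1) := by
            have : 0 ≤ (1 - r) ^ (b + 1) := pow_nonneg (by linarith) _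
            gcongr
        _ = ((1 - r) * (1 + r)) ^ (b + 1) := by rw [mul_pow]
        _ ≤ 1 := by
            apply pow_le_one₀ <;> nlinarith
    linarith
  have hvb := vb_pos b hε
  have e : volume.real {z : W b | z ∈ Om b ε ∧ ‖z.fst‖ < r} = vb b ε * (2 * Real.pi *
      ((1 - (1 - r) ^ (b + 1) * (1 + (b + 1) * r)) / ((b + 1) * (b + 2)))) := by
    unfold Measure.real
    rw [h]
    rw [ENNReal.toReal_ofReal (by positivity)]
  rw [e, vol_Om hb hε]
  ring

lemma vol_cyl_le {ε r : ℝ} (hb : 1 ≤ b) (hε : 0 < ε) (hr : 0 ≤ r) (hr1 : r ≤ 1) :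
    volume.real {z : W b | z ∈ Om b ε ∧ ‖z.fst‖ < r} ≤
      ((b + 1) * r) ^ 2 * volume.real (Om b ε) := by
  rw [vol_cyl hb hε hr hr1]
  refine mul_le_mul_of_nonneg_right ?_ measureReal_nonneg
  have h1 := one_add_mul_le_pow (a := -r) (by linarith) (b + 1)
  push_cast at h1
  have h2 : (1 - ((b : ℝ) + 1) * r) * (1 + ((b : ℝ) + 1) * r) ≤
      (1 - r) ^ (b + 1) * (1 + ((b : ℝ) + 1) * r) := by
    have h3 : 0 ≤ 1 + ((b : ℝ) + 1) * r := by positivity
    refine mul_le_mul_of_nonneg_right ?_ h3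
    have : 1 + ((b : ℝ) + 1) * -r = 1 - ((b : ℝ) + 1) * r := by ring
    rw [this] at h1
    exact h1
  nlinarith

end Pool.Agent.U69.CN
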