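import Pool.Agent.U69.CN.Vol

/-!
# The cone problem (MP_65ff7c_an): a planar integral
-/

set_option autoImplicit false

open MeasureTheory Set Metric Filter Topology
open scoped ENNReal Real

noncomputable section

namespace Pool.Agent.U69.CN

open Pool.Agent.TH703.Cone

/-- the transition function -/
def hh (t : ℝ) : ℝ := 2 * Real.smoothTransition ((t + 1) / 2) - 1

lemma hh_contDiff : ContDiff ℝ 1 hh := by
  unfold hh
  exact (contDiff_const.mul ((Real.smoothTransition.contDiff (n := 1)).comp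
    (by fun_prop : ContDiff ℝ 1 fun t : ℝ => (t + 1) / 2))).sub contDiff_const

lemma hh_one {t : ℝ} (h : 1 ≤ t) : hh t = 1 := by
  unfold hh
  rw [Real.smoothTransition.one_of_one_le (by linarith)]
  norm_num

lemma hh_neg_one {t : ℝ} (h : t ≤ -1) : hh t = -1 := by
  unfold hh
  rw [Real.smoothTransition.zero_of_nonpos (by linarith)]
  norm_num

lemma hh_abs (t : ℝ) : |hh t| ≤ 1 := by
  unfold hh
  have h1 := Real.smoothTransition.nonneg ((t + 1) / 2)
  have h2 := Real.smoothTransition.le_one ((t + 1) / 2)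
  rw [abs_le]
  constructor <;> linarith

lemma deriv_hh_zero {t : ℝ} (h : 1 < |t|) : deriv hh t = 0 := by
  rcases lt_abs.1 h with h | h
  · have : hh =ᶠ[𝓝 t] fun _ => 1 := by
      filter_upwards [lt_mem_nhds h] with s hs
      exact hh_one hs.le
    rw [this.deriv_eq, deriv_const]
  · have : hh =ᶠ[𝓝 t] fun _ => -1 := by
      filter_upwards [gt_mem_nhds (show t < -1 by linarith)] with s hs
      exact hh_neg_one hs.le
    rw [this.deriv_eq, deriv_const]

lemma deriv_hh_cont : Continuous (deriv hh) := hh_contDiff.continuous_deriv (by norm_num)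

lemma hh_hasDeriv (t : ℝ) : HasDerivAt hh (deriv hh t) t :=
  (hh_contDiff.differentiable (by norm_num) t).hasDerivAt

lemma exists_M : ∃ M : ℝ, 0 < M ∧ ∀ t, |deriv hh t| ≤ M := by
  have hc : HasCompactSupport (deriv hh) := hcs_bound 1 fun t ht => deriv_hh_zero ht
  obtain ⟨C, hC⟩ := hc.exists_bound_of_continuous deriv_hh_cont
  refine ⟨max C 1, by positivity, fun t => ?_⟩
  have := hC t
  rw [Real.norm_eq_abs] at this
  exact this.trans (le_max_left _ _)

/-- the angular derivative -/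
def gg (u : ℂ) (σ : ℝ) (x : ℂ) : ℝ :=
  deriv hh ((x * u).im / (σ * ‖x‖)) * ((x * u).re / (σ * ‖x‖ ^ 2))

lemma measurable_gg (u : ℂ) (σ : ℝ) : Measurable (gg u σ) := by
  unfold gg
  have := deriv_hh_cont.measurable
  fun_prop

lemma gg_zero {u : ℂ} {σ : ℝ} (hσ : 0 < σ) {x : ℂ} (h : σ * ‖x‖ < |(x * u).im|) :
    gg u σ x = 0 := by
  unfold gg
  by_cases hx : x = 0
  · subst hx
    simp
  · have hx' : 0 < ‖x‖ := norm_pos_iff.2 hx
    rw [deriv_hh_zero, zero_mul]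
    rw [abs_div, abs_of_pos (by positivity : 0 < σ * ‖x‖), lt_div_iff₀ (by positivity), one_mul]
    exact h

lemma gg_bound {M : ℝ} (hM : ∀ t, |deriv hh t| ≤ M) {u : ℂ} (hu : ‖u‖ = 1) {σ r₀ : ℝ}
    (hσ : 0 < σ) (hr₀ : 0 < r₀) {x : ℂ} (hx : r₀ ≤ ‖x‖) : |gg u σ x| ≤ M / (σ * r₀) := by
  have hx' : 0 < ‖x‖ := by linarith
  have hM0 : 0 ≤ M := (abs_nonneg _).trans (hM 0)
  unfold gg
  rw [abs_mul]
  have h1 : |(x * u).re / (σ * ‖x‖ ^ 2)| ≤ 1 / (σ * r₀) := by
    rw [abs_div, abs_of_pos (by positivity : 0 < σ * ‖x‖ ^ 2), div_le_div_iff₀ (by positivity)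
      (by positivity)]
    have h2 : |(x * u).re| ≤ ‖x‖ := by
      refine (Complex.abs_re_le_norm _).trans ?_
      rw [norm_mul, hu, mul_one]
    have h3 : |(x * u).re| * (σ * r₀) ≤ ‖x‖ * (σ * ‖x‖) := by gcongr
    nlinarith
  calc _ ≤ M * (1 / (σ * r₀)) := by
        gcongr
        exact hM _
    _ = _ := by ring

/-- the angular integral -/
lemma ang {σ : ℝ} (hσ : 0 < σ) (hσ1 : σ ≤ 1 / 2) :
    ∫ θ in Ioo (-π) π, ({θ : ℝ | 0 < Real.cos θ}).indicator
      (fun θ => deriv hh (Real.sin θ / σ) * (Real.cos θ / σ)) θ = 2 := by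
  have hpi := Real.pi_pos
  have hm : MeasurableSet {θ : ℝ | 0 < Real.cos θ} :=
    (isOpen_lt continuous_const Real.continuous_cos).measurableSet
  rw [setIntegral_indicator hm]
  have e : Ioo (-π) π ∩ {θ : ℝ | 0 < Real.cos θ} = Ioo (-(π / 2)) (π / 2) := by
    ext θ
    simp only [mem_inter_iff, mem_Ioo]
    constructor
    · rintro ⟨⟨h1, h2⟩, h3⟩
      have h3' : 0 < Real.cos θ := h3
      constructor
      · by_contra hc
        have := Real.cos_nonpos_of_pi_div_two_le_of_le (x := -θ) (by linarith) (by linarith)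
        rw [Real.cos_neg] at this
        linarith
      · by_contra hc
        have := Real.cos_nonpos_of_pi_div_two_le_of_le (x := θ) (by linarith) (by linarith)
        linarith
    · rintro ⟨h1, h2⟩
      exact ⟨⟨by linarith, by linarith⟩, Real.cos_pos_of_mem_Ioo ⟨h1, h2⟩⟩
  rw [e, ← integral_Ioc_eq_integral_Ioo, ← intervalIntegral.integral_of_le (by linarith)]
  have hd : ∀ θ ∈ uIcc (-(π / 2)) (π / 2), HasDerivAt (fun θ => hh (Real.sin θ / σ))
      (deriv hh (Real.sin θ / σ) * (Real.cos θ / σ)) θ := by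
    intro θ _
    exact (hh_hasDeriv _).comp θ ((Real.hasDerivAt_sin θ).div_const σ)
  rw [intervalIntegral.integral_eq_sub_of_hasDerivAt hd]
  · rw [Real.sin_neg, Real.sin_pi_div_two]
    have h1 : 1 ≤ 1 / σ := by
      rw [le_div_iff₀ hσ]
      linarith
    rw [hh_one h1, hh_neg_one (by rw [neg_div]; linarith)]
    norm_num
  · apply Continuous.intervalIntegrable
    have := deriv_hh_cont
    fun_prop

/-- the planar integral -/
lemma planar (b : ℕ) {u : ℂ} (hu : ‖u‖ = 1) {σ r₀ R₁ : ℝ} (hσ : 0 < σ) (hσ1 : σ ≤ 1 / 2)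
    (hr₀ : 0 < r₀) (hR : r₀ < R₁) :
    ∫ x : ℂ, ({x : ℂ | (r₀ < ‖x‖ ∧ ‖x‖ < R₁) ∧ 0 < (x * u).re}).indicator
      (fun x => (1 - ‖x‖) ^ b * gg u σ x) x = 2 * ∫ ρ in r₀..R₁, (1 - ρ) ^ b := by
  -- rotation
  set Φ : ℂ → ℝ := ({w : ℂ | (r₀ < ‖w‖ ∧ ‖w‖ < R₁) ∧ 0 < w.re}).indicator
    (fun w => (1 - ‖w‖) ^ b * (deriv hh (w.im / (σ * ‖w‖)) * (w.re / (σ * ‖w‖ ^ 2)))) with hΦ
  have h1 : ∀ x : ℂ, ({x : ℂ | (r₀ < ‖x‖ ∧ ‖x‖ < R₁) ∧ 0 < (x * u).re}).indicator
      (fun x => (1 - ‖x‖) ^ b * gg u σ x) x = Φ (x * u) := by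
    intro x
    have hn : ‖x * u‖ = ‖x‖ := by rw [norm_mul, hu, mul_one]
    by_cases hx : (r₀ < ‖x‖ ∧ ‖x‖ < R₁) ∧ 0 < (x * u).re
    · rw [indicator_of_mem (show x ∈ {x : ℂ | (r₀ < ‖x‖ ∧ ‖x‖ < R₁) ∧ 0 < (x * u).re} from hx),
        hΦ, indicator_of_mem (show x * u ∈ {w : ℂ | (r₀ < ‖w‖ ∧ ‖w‖ < R₁) ∧ 0 < w.re} by
          rw [mem_ofPred_eq, hn]; exact hx)]
      rw [hn]
      rfl
    · rw [indicator_of_notMem (show x ∉ {x : ℂ | (r₀ < ‖x‖ ∧ ‖x‖ < R₁) ∧ 0 < (x * u).re} from hx),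
        hΦ, indicator_of_notMem (show x * u ∉ {w : ℂ | (r₀ < ‖w‖ ∧ ‖w‖ < R₁) ∧ 0 < w.re} by
          rw [mem_ofPred_eq, hn]; exact hx)]
  simp_rw [h1]
  have h2 : ∫ x : ℂ, Φ (x * u) = ∫ w : ℂ, Φ w := by
    set c : Circle := ⟨u, mem_sphere_zero_iff_norm.2 hu⟩ with hc
    have h3 := (rotation c).measurePreserving.integral_comp
      (rotation c).toHomeomorph.measurableEmbedding Φ
    rw [← h3]
    refine integral_congr_ae (Eventually.of_forall fun x => ?_)
    change Φ (x * u) = Φ ((rotation c) x)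
    rw [rotation_apply, hc, mul_comm]
  rw [h2, ← Complex.integral_comp_polarCoord_symm, polarCoord_target]
  have h3 : ∀ p ∈ Ioi (0 : ℝ) ×ˢ Ioo (-π) π, p.1 • Φ (Complex.polarCoord.symm p) =
      ((Ioo r₀ R₁).indicator (fun ρ => (1 - ρ) ^ b) p.1) *
      (({θ : ℝ | 0 < Real.cos θ}).indicator
        (fun θ => deriv hh (Real.sin θ / σ) * (Real.cos θ / σ)) p.2) := by
    rintro ⟨ρ, θ⟩ ⟨hρ, -⟩
    have hρ' : 0 < ρ := hρ
    have hn : ‖Complex.polarCoord.symm (ρ, θ)‖ = ρ := by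
      rw [Complex.norm_polarCoord_symm, abs_of_pos hρ']
    have hre : (Complex.polarCoord.symm (ρ, θ)).re = ρ * Real.cos θ := by
      rw [Pool.Agent.TH914.HU.symm_eq, Complex.re_ofReal_mul]
      rfl
    have him : (Complex.polarCoord.symm (ρ, θ)).im = ρ * Real.sin θ := by
      rw [Pool.Agent.TH914.HU.symm_eq, Complex.im_ofReal_mul]
      rfl
    simp only
    by_cases h4 : ρ ∈ Ioo r₀ R₁
    · by_cases h5 : 0 < Real.cos θ
      · rw [indicator_of_mem h4, indicator_of_mem (show θ ∈ {θ : ℝ | 0 < Real.cos θ} from h5),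
          hΦ, indicator_of_mem (show Complex.polarCoord.symm (ρ, θ) ∈ {w : ℂ | (r₀ < ‖w‖ ∧
            ‖w‖ < R₁) ∧ 0 < w.re} by
              rw [mem_ofPred_eq, hn, hre]; exact ⟨h4, by positivity⟩)]
        rw [hn, hre, him, smul_eq_mul]
        have e1 : ρ * Real.sin θ / (σ * ρ) = Real.sin θ / σ := by field_simp
        have e2 : ρ * Real.cos θ / (σ * ρ ^ 2) = Real.cos θ / σ / ρ := by field_simp
        rw [e1, e2]
        field_simp
      · rw [indicator_of_notMem (show θ ∉ {θ : ℝ | 0 < Real.cos θ} from h5), mul_zero,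
          hΦ, indicator_of_notMem, smul_zero]
        rw [mem_ofPred_eq, hre]
        rintro ⟨-, h6⟩
        exact h5 ((mul_pos_iff_of_pos_left hρ').1 h6)
    · rw [indicator_of_notMem h4, zero_mul, hΦ, indicator_of_notMem, smul_zero]
      rw [mem_ofPred_eq, hn]
      exact fun h6 => h4 h6.1
  rw [setIntegral_congr_fun (measurableSet_Ioi.prod measurableSet_Ioo) h3,
    Measure.volume_eq_prod,
    setIntegral_prod_mul (fun ρ : ℝ => (Ioo r₀ R₁).indicator (fun ρ => (1 - ρ) ^ b) ρ), ang hσ hσ1,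
    setIntegral_indicator measurableSet_Ioo]
  have h4 : Ioi (0 : ℝ) ∩ Ioo r₀ R₁ = Ioo r₀ R₁ := by
    ext ρ
    simp only [mem_inter_iff, mem_Ioi, mem_Ioo]
    exact ⟨fun h => h.2, fun h => ⟨by linarith, h⟩⟩
  rw [h4, intervalIntegral.integral_of_le hR.le, integral_Ioc_eq_integral_Ioo, mul_comm]

end Pool.Agent.U69.CN
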