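import Pool.Agent.U69.CN.Planar

/-!
# The cone problem (MP_65ff7c_an): the rotational field
-/

set_option autoImplicit false

open MeasureTheory Set Metric Filter Topology
open scoped ENNReal Real

noncomputable section

namespace Pool.Agent.U69.CN

open Pool.Agent.TH703.Cone

variable {b : ℕ}

/-- a defining function of the body -/
def mm (ε : ℝ) (z : W b) : ℝ := (1 - ‖z.fst‖) ^ 2 - ‖z.snd‖ ^ 2 / ε ^ 2

/-- the cutoff function -/
def qq (ε r₀ R₁ : ℝ) (n : ℕ) (z : W b) : ℝ :=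
  Real.smoothTransition (n * mm ε z - 1) * Real.smoothTransition (n * (‖z.fst‖ - r₀) - 1) *
    Real.smoothTransition (n * (R₁ - ‖z.fst‖) - 1)

lemma qq_nonneg (ε r₀ R₁ : ℝ) (n : ℕ) (z : W b) : 0 ≤ qq ε r₀ R₁ n z := by
  unfold qq
  have h1 := Real.smoothTransition.nonneg (n * mm ε z - 1)
  have h2 := Real.smoothTransition.nonneg (n * (‖z.fst‖ - r₀) - 1)
  have h3 := Real.smoothTransition.nonneg (n * (R₁ - ‖z.fst‖) - 1)
  positivity

lemma qq_le_one (ε r₀ R₁ : ℝ) (n : ℕ) (z : W b) : qq ε r₀ R₁ n z ≤ 1 := by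
  unfold qq
  have h1 := Real.smoothTransition.nonneg (n * mm ε z - 1)
  have h2 := Real.smoothTransition.nonneg (n * (‖z.fst‖ - r₀) - 1)
  have h3 := Real.smoothTransition.nonneg (n * (R₁ - ‖z.fst‖) - 1)
  have h4 := Real.smoothTransition.le_one (n * mm ε z - 1)
  have h5 := Real.smoothTransition.le_one (n * (‖z.fst‖ - r₀) - 1)
  have h6 := Real.smoothTransition.le_one (n * (R₁ - ‖z.fst‖) - 1)
  have h7 := mul_le_one₀ (mul_le_one₀ h4 h2 h5) h3 h6
  exact h7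

/-- the support of the cutoff -/
def KK (ε r₀ R₁ : ℝ) (n : ℕ) : Set (W b) :=
  {z | 1 ≤ n * mm ε z ∧ 1 ≤ n * (‖z.fst‖ - r₀) ∧ 1 ≤ n * (R₁ - ‖z.fst‖)}

lemma qq_zero {ε r₀ R₁ : ℝ} {n : ℕ} {z : W b} (hz : z ∉ KK ε r₀ R₁ n) : qq ε r₀ R₁ n z = 0 := by
  unfold qq
  by_cases h1 : 1 ≤ n * mm ε z
  · by_cases h2 : 1 ≤ n * (‖z.fst‖ - r₀)
    · have h3 : ¬ 1 ≤ n * (R₁ - ‖z.fst‖) := fun h3 => hz ⟨h1, h2, h3⟩
      rw [Real.smoothTransition.zero_of_nonpos (x := n * (R₁ - ‖z.fst‖) - 1) (by linarith),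
        mul_zero]
    · rw [Real.smoothTransition.zero_of_nonpos (x := n * (‖z.fst‖ - r₀) - 1) (by linarith),
        mul_zero, zero_mul]
  · rw [Real.smoothTransition.zero_of_nonpos (x := n * mm ε z - 1) (by linarith),
      zero_mul, zero_mul]

lemma mm_cont (ε : ℝ) : Continuous (mm ε : W b → ℝ) := by
  unfold mm
  exact ((continuous_const.sub continuous_fst'.norm).pow 2).sub
    ((continuous_snd'.norm.pow 2).div_const _)

lemma KK_closed (ε r₀ R₁ : ℝ) (n : ℕ) : IsClosed (KK ε r₀ R₁ n : Set (W b)) := by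
  have h1 := mm_cont (b := b) ε
  have h2 := (continuous_fst' (b := b)).norm
  exact (isClosed_le continuous_const (continuous_const.mul h1)).inter
    ((isClosed_le continuous_const (continuous_const.mul (h2.sub continuous_const))).inter
      (isClosed_le continuous_const (continuous_const.mul (continuous_const.sub h2))))

lemma mm_pos_iff {ε : ℝ} (hε : 0 < ε) {z : W b} (hz : ‖z.fst‖ < 1) :
    0 < mm ε z ↔ z ∈ Om b ε := by
  unfold mm
  rw [mem_Om, ← div_pow, sub_pos, sq_lt_sq₀ (by positivity) (by linarith)]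
  constructor <;> intro h <;> linarith

lemma KK_sub {ε r₀ R₁ : ℝ} (hε : 0 < ε) (hR : R₁ < 1) (n : ℕ) :
    (KK ε r₀ R₁ n : Set (W b)) ⊆ Om b ε := by
  rintro z ⟨h1, h2, h3⟩
  have hn : (0 : ℝ) < n := by
    rcases Nat.eq_zero_or_pos n with rfl | hn
    · simp at h1
      linarith
    · exact_mod_cast hn
  have h4 : 0 < R₁ - ‖z.fst‖ := by
    by_contra hc
    have : n * (R₁ - ‖z.fst‖) ≤ 0 := mul_nonpos_of_nonneg_of_nonpos hn.le (not_lt.1 hc)
    linarith
  have h5 : 0 < mm ε z := by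
    by_contra hc
    have : n * mm ε z ≤ 0 := mul_nonpos_of_nonneg_of_nonpos hn.le (not_lt.1 hc)
    linarith
  exact (mm_pos_iff hε (by linarith)).1 h5

lemma KK_r₀ {ε r₀ R₁ : ℝ} {n : ℕ} {z : W b} (hz : z ∈ KK ε r₀ R₁ n) : r₀ < ‖z.fst‖ := by
  obtain ⟨h1, h2, h3⟩ := hz
  by_contra hc
  have : n * (‖z.fst‖ - r₀) ≤ 0 :=
    mul_nonpos_of_nonneg_of_nonpos (Nat.cast_nonneg n) (by linarith)
  linarith

lemma KK_compact {ε r₀ R₁ : ℝ} (hε : 0 < ε) (hR : R₁ < 1) (n : ℕ) :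
    IsCompact (KK ε r₀ R₁ n : Set (W b)) :=
  isCompact_of_isClosed_isBounded (KK_closed ε r₀ R₁ n)
    ((Om_bounded b hε).subset (KK_sub hε hR n))

/-- the coefficient -/
def cc (u : ℂ) (σ ε r₀ R₁ : ℝ) (n : ℕ) (z : W b) : ℝ :=
  qq ε r₀ R₁ n z * hh ((z.fst * u).im / (σ * ‖z.fst‖)) / ‖z.fst‖

/-- the field -/
def ff (u : ℂ) (σ ε r₀ R₁ : ℝ) (n : ℕ) (z : W b) : W b :=
  mk (cc u σ ε r₀ R₁ n z • (Complex.I * z.fst)) 0

lemma ff_zero {u : ℂ} {σ ε r₀ R₁ : ℝ} {n : ℕ} {z : W b} (hz : z ∉ KK ε r₀ R₁ n) :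
    ff u σ ε r₀ R₁ n z = 0 := by
  unfold ff cc
  rw [qq_zero hz]
  simp only [zero_mul, zero_div, zero_smul]
  rfl

lemma cc_contDiffAt {u : ℂ} {σ ε r₀ R₁ : ℝ} (hσ : 0 < σ) {n : ℕ} {z : W b} (hz : z.fst ≠ 0) :
    ContDiffAt ℝ 1 (cc u σ ε r₀ R₁ n : W b → ℝ) z := by
  have hz' : 0 < ‖z.fst‖ := norm_pos_iff.2 hz
  have h1 : ContDiffAt ℝ 1 (fun z : W b => z.fst) z := (pL b).contDiff.contDiffAt
  have h2 : ContDiffAt ℝ 1 (fun z : W b => ‖z.fst‖) z := h1.norm ℝ hz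
  have h3 : ContDiffAt ℝ 1 (fun z : W b => z.snd) z := (pR b).contDiff.contDiffAt
  have h4 : ContDiffAt ℝ 1 (fun z : W b => ‖z.snd‖ ^ 2) z := h3.norm_sq ℝ
  have h5 : ContDiffAt ℝ 1 (mm ε : W b → ℝ) z := by
    unfold mm
    exact ((contDiffAt_const.sub h2).pow 2).sub (h4.div_const _)
  have hT : ContDiff ℝ 1 Real.smoothTransition := Real.smoothTransition.contDiff (n := 1)
  have h6 : ContDiffAt ℝ 1 (qq ε r₀ R₁ n : W b → ℝ) z := by
    unfold qq
    exact ((hT.contDiffAt.comp z ((contDiffAt_const.mul h5).sub contDiffAt_const)).mul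
      (hT.contDiffAt.comp z ((contDiffAt_const.mul (h2.sub contDiffAt_const)).sub
        contDiffAt_const))).mul
      (hT.contDiffAt.comp z ((contDiffAt_const.mul (contDiffAt_const.sub h2)).sub
        contDiffAt_const))
  have h7 : ContDiffAt ℝ 1 (fun z : W b => (z.fst * u).im) z :=
    Complex.imCLM.contDiff.contDiffAt.comp z (h1.mul contDiffAt_const)
  have h8 : ContDiffAt ℝ 1 (fun z : W b => hh ((z.fst * u).im / (σ * ‖z.fst‖))) z :=
    hh_contDiff.contDiffAt.comp z (h7.div (contDiffAt_const.mul h2) (by positivity))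
  exact (h6.mul h8).div h2 hz'.ne'

lemma ff_contDiff {u : ℂ} {σ ε r₀ R₁ : ℝ} (hσ : 0 < σ) (hr₀ : 0 < r₀) (n : ℕ) :
    ContDiff ℝ 1 (ff u σ ε r₀ R₁ n : W b → W b) := by
  rw [contDiff_iff_contDiffAt]
  intro z
  by_cases hz : z.fst = 0
  · have : (ff u σ ε r₀ R₁ n : W b → W b) =ᶠ[𝓝 z] fun _ => 0 := by
      have hU : IsOpen {z : W b | ‖z.fst‖ < r₀} := isOpen_lt continuous_fst'.norm continuous_const
      filter_upwards [hU.mem_nhds (show ‖z.fst‖ < r₀ by rw [hz, norm_zero]; exact hr₀)] with w hw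
      exact ff_zero fun h => by
        have := KK_r₀ h
        have hw' : ‖w.fst‖ < r₀ := hw
        linarith
    exact contDiffAt_const.congr_of_eventuallyEq this
  · have h1 : ContDiffAt ℝ 1 (fun z : W b => z.fst) z := (pL b).contDiff.contDiffAt
    have h2 : ContDiffAt ℝ 1 (fun z : W b => cc u σ ε r₀ R₁ n z • (Complex.I * z.fst)) z :=
      (cc_contDiffAt hσ hz).smul (contDiffAt_const.mul h1)
    exact (iL b).contDiff.contDiffAt.comp z h2

lemma ff_le {u : ℂ} {σ ε r₀ R₁ : ℝ} {n : ℕ} (z : W b) : ‖ff u σ ε r₀ R₁ n z‖ ≤ 1 := by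
  unfold ff cc
  rw [norm_mk_zero', norm_smul, norm_mul, Complex.norm_I, one_mul]
  by_cases hz : z.fst = 0
  · rw [hz]
    simp
  · have hz' : 0 < ‖z.fst‖ := norm_pos_iff.2 hz
    rw [norm_div, norm_norm, div_mul_cancel₀ _ hz'.ne', norm_mul, Real.norm_eq_abs,
      Real.norm_eq_abs, abs_of_nonneg (qq_nonneg _ _ _ _ _)]
    calc _ ≤ (1 : ℝ) * 1 := by
          gcongr
          · exact qq_le_one _ _ _ _ _
          · exact hh_abs _
      _ = 1 := by norm_num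

lemma ff_tst {u : ℂ} {σ ε r₀ R₁ : ℝ} (hσ : 0 < σ) (hε : 0 < ε) (hr₀ : 0 < r₀) (hR : R₁ < 1)
    (n : ℕ) : Tst (Om b ε) (ff u σ ε r₀ R₁ n : W b → W b) := by
  have h1 : tsupport (ff u σ ε r₀ R₁ n : W b → W b) ⊆ KK ε r₀ R₁ n := by
    refine closure_minimal (fun z hz => ?_) (KK_closed ε r₀ R₁ n)
    by_contra h
    exact hz (ff_zero h)
  refine ⟨ff_contDiff hσ hr₀ n, ?_, h1.trans (KK_sub hε hR n), ff_le⟩
  exact (KK_compact hε hR n).of_isClosed_subset (isClosed_tsupport _) h1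

/-- the planar divergence of `c(x) i x` -/
lemma dv2_smul_I {c : ℂ → ℝ} {x : ℂ} (hc : DifferentiableAt ℝ c x) :
    Pool.Agent.TH304.MI.dv2 (fun x => c x • (Complex.I * x)) x =
      fderiv ℝ c x (Complex.I * x) := by
  have h1 : HasFDerivAt (fun x : ℂ => Complex.I * x) (Complex.I • (ContinuousLinearMap.id ℝ ℂ)) x :=
    (hasFDerivAt_id x).const_mul Complex.I
  have h2 := hc.hasFDerivAt.smul h1
  unfold Pool.Agent.TH304.MI.dv2
  have h3 : fderiv ℝ (fun x => c x • (Complex.I * x)) x =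
      c x • Complex.I • ContinuousLinearMap.id ℝ ℂ +
        (fderiv ℝ c x).smulRight (Complex.I * x) := h2.fderiv
  rw [h3]
  have h4 : fderiv ℝ c x (Complex.I * x) =
      (-x.im) * fderiv ℝ c x 1 + x.re * fderiv ℝ c x Complex.I := by
    have : Complex.I * x = (-x.im) • (1 : ℂ) + x.re • Complex.I := by
      apply Complex.ext <;> simp
    rw [this, map_add, map_smul, map_smul, smul_eq_mul, smul_eq_mul]
  rw [h4]
  simp
  ring

lemma rot_hasDeriv (w : ℂ) :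
    HasDerivAt (fun t : ℝ => Complex.exp (t * Complex.I) * w) (Complex.I * w) 0 := by
  have h1 : HasDerivAt (fun t : ℝ => (t : ℂ) * Complex.I) (1 * Complex.I) 0 :=
    ((hasDerivAt_id (0 : ℝ)).ofReal_comp).mul_const Complex.I
  have h2 := (h1.cexp).mul_const w
  refine h2.congr_deriv ?_
  simp

/-- the divergence of the field -/
lemma dv_ff {u : ℂ} {σ ε r₀ R₁ : ℝ} (hσ : 0 < σ) (hr₀ : 0 < r₀) (n : ℕ)
    (z : W b) : dv (ff u σ ε r₀ R₁ n : W b → W b) z = qq ε r₀ R₁ n z * gg u σ z.fst := by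
  obtain ⟨x, y, rfl⟩ : ∃ x y, z = mk x y := ⟨z.fst, z.snd, rfl⟩
  by_cases hx : x = 0
  · have h0 : (mk x y : W b) ∉ KK ε r₀ R₁ n := by
      intro h
      have := KK_r₀ h
      rw [mk_fst, hx, norm_zero] at this
      linarith
    rw [qq_zero h0, zero_mul]
    have h1 : tsupport (ff u σ ε r₀ R₁ n : W b → W b) ⊆ KK ε r₀ R₁ n := by
      refine closure_minimal (fun z hz => ?_) (KK_closed ε r₀ R₁ n)
      by_contra h
      exact hz (ff_zero h)
    exact Pool.Agent.TH703.Cone.Div.dv_eq_zero_of_notMem fun h => h0 (h1 h)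
  have hx' : 0 < ‖x‖ := norm_pos_iff.2 hx
  rw [dv_split (ff_contDiff hσ hr₀ n)]
  have h2 : dv (fun y : B b => (ff u σ ε r₀ R₁ n (mk x y)).snd) y = 0 := by
    have : (fun y : B b => (ff u σ ε r₀ R₁ n (mk x y)).snd) = fun _ => 0 := rfl
    rw [this]
    unfold dv
    simp
  rw [h2, add_zero]
  set c : ℂ → ℝ := fun x => cc u σ ε r₀ R₁ n (mk x y : W b) with hc
  have hcd : DifferentiableAt ℝ c x := by
    have h3 : DifferentiableAt ℝ (cc u σ ε r₀ R₁ n : W b → ℝ) (mk x y) :=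
      (cc_contDiffAt hσ (z := mk x y) hx).differentiableAt (by norm_num)
    have h4 : DifferentiableAt ℝ (fun x : ℂ => (mk x y : W b)) x := by
      have : (fun x : ℂ => (mk x y : W b)) = fun x => iL b x + iR b y :=
        funext fun x => mk_add_eq x y
      rw [this]
      exact (iL b).differentiableAt.add_const _
    exact h3.comp x h4
  have h3 : (fun x : ℂ => (ff u σ ε r₀ R₁ n (mk x y : W b)).fst) =
      fun x => c x • (Complex.I * x) := rfl
  rw [h3, dv2_smul_I hcd]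
  -- derivative along the rotation
  have h4 := rot_hasDeriv x
  have h5 : HasDerivAt (fun t : ℝ => c (Complex.exp (t * Complex.I) * x))
      (fderiv ℝ c x (Complex.I * x)) 0 := by
    have h6 : HasFDerivAt c (fderiv ℝ c x) (Complex.exp ((0 : ℝ) * Complex.I) * x) := by
      simpa using hcd.hasFDerivAt
    exact h6.comp_hasDerivAt (0 : ℝ) h4
  have h6 : (fun t : ℝ => c (Complex.exp (t * Complex.I) * x)) = fun t : ℝ =>
      qq ε r₀ R₁ n (mk x y : W b) *
        hh ((Complex.exp (t * Complex.I) * (x * u)).im / (σ * ‖x‖)) / ‖x‖ := by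
    funext t
    have hn : ‖Complex.exp (t * Complex.I) * x‖ = ‖x‖ := by
      rw [norm_mul, Complex.norm_exp_ofReal_mul_I, one_mul]
    rw [hc]
    simp only [cc, qq, mm, mk_fst, mk_snd, hn, mul_assoc]
  have h7 : HasDerivAt (fun t : ℝ => qq ε r₀ R₁ n (mk x y : W b) *
        hh ((Complex.exp (t * Complex.I) * (x * u)).im / (σ * ‖x‖)) / ‖x‖)
      (qq ε r₀ R₁ n (mk x y : W b) * (deriv hh ((x * u).im / (σ * ‖x‖)) *
        ((Complex.I * (x * u)).im / (σ * ‖x‖))) / ‖x‖) 0 := by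
    have h8 := Complex.imCLM.hasFDerivAt.comp_hasDerivAt (0 : ℝ) (rot_hasDeriv (x * u))
    have h9 := h8.div_const (σ * ‖x‖)
    have h10 : HasDerivAt hh (deriv hh ((x * u).im / (σ * ‖x‖)))
        ((Complex.exp ((0 : ℝ) * Complex.I) * (x * u)).im / (σ * ‖x‖)) := by
      have := hh_hasDeriv ((x * u).im / (σ * ‖x‖))
      simpa using this
    have h11 := h10.comp (0 : ℝ) h9
    exact (h11.const_mul _).div_const _
  rw [h6] at h5
  rw [h5.unique h7, mk_fst]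
  unfold gg
  have h8 : (Complex.I * (x * u)).im = (x * u).re := by simp
  rw [h8]
  field_simp

end Pool.Agent.U69.CN
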