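import Pool.Agent.U69.CN.T6

/-!
# The cone problem (MP_65ff7c_an): scaling and numerics
-/

set_option autoImplicit false

open MeasureTheory Set Metric Filter Topology
open scoped ENNReal Real Pointwise

noncomputable section

namespace Pool.Agent.U69.CN

open Pool.Agent.TH703.Cone

variable {b : ℕ}

/-- the preimage under the scaling of the fibres -/
def pre (ε : ℝ) (S : Set (W b)) : Set (W b) := {z | mk z.fst (ε • z.snd) ∈ S}

lemma pre_cont (ε : ℝ) : Continuous fun z : W b => mk z.fst (ε • z.snd) :=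
  continuous_mk.comp (continuous_fst'.prodMk (continuous_snd'.const_smul ε))

lemma vol_fib_pre {ε : ℝ} (hε : 0 < ε) (S : Set (W b)) (x : ℂ) :
    volume (fib S x) = ENNReal.ofReal (ε ^ b) * volume (fib (pre ε S) x) := by
  have h1 : fib S x = ε • fib (pre ε S) x := by
    ext y
    rw [mem_smul_set_iff_inv_smul_mem₀ hε.ne']
    change mk x y ∈ S ↔ mk x (ε • ε⁻¹ • y) ∈ S
    rw [smul_smul, mul_inv_cancel₀ hε.ne', one_smul]
  rw [h1, Measure.addHaar_smul]
  congr 2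
  rw [abs_of_pos (by positivity)]
  simp [B]

lemma vol_pre {ε : ℝ} (hε : 0 < ε) {S : Set (W b)} (hS : MeasurableSet S) :
    volume S = ENNReal.ofReal (ε ^ b) * volume (pre ε S) := by
  have h1 : MeasurableSet (pre ε S) := (pre_cont ε).measurable hS
  rw [vol_eq hS, vol_eq h1, ← lintegral_const_mul _ (measurable_vol_fib h1)]
  exact lintegral_congr fun x => vol_fib_pre hε S x

lemma pre_Om {ε : ℝ} (hε : 0 < ε) : pre ε (Om b ε) = Om b 1 := by
  ext z
  change mk z.fst (ε • z.snd) ∈ Om b ε ↔ z ∈ Om b 1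
  rw [mem_Om, mem_Om, mk_fst, mk_snd, norm_smul, Real.norm_of_nonneg hε.le, div_one,
    mul_div_cancel_left₀ _ hε.ne']

lemma vb_scale {ε : ℝ} (hε : 0 < ε) (hb : 1 ≤ b) : vb b ε = ε ^ b * vb b 1 := by
  have h := vol_ball_mul (b := b) (ε := 1) hε.le hb
  rw [mul_one] at h
  unfold vb Measure.real
  rw [h, ENNReal.toReal_mul, ENNReal.toReal_ofReal (vb_pos b one_pos).le,
    ENNReal.toReal_ofReal (by positivity), mul_comm]
  rfl

/-- **T6.** -/
theorem t6 (c K : ℝ) (hc : 0 < c) (hK : 1 < K) : ∃ b₀ : ℕ, ∀ b : ℕ, b₀ ≤ b → 1 ≤ b ∧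
    ∀ r₀ : ℝ, 0 < r₀ → ∃ σ η : ℝ, 0 < σ ∧ σ ≤ 1 / 2 ∧ 0 < η ∧ ∀ (ε : ℝ) (G : Set (W b)),
      0 < ε → IsOpen G →
      (∀ z ∈ G, ∀ t : ℝ, 0 < t → t • z ∈ G) → (∀ z ∈ G, ∀ w ∈ G, z + w ∈ G) →
      ENNReal.ofReal c * volume (Om b ε) ≤ volume (Om b ε ∩ G) →
      ∃ u : ℂ, ‖u‖ = 1 ∧ ∀ x ∈ Wp u σ r₀ ((K - 1) / b),
        ENNReal.ofReal (η * vb b ε) ≤ volume (fib (Om b ε ∩ G) x) := by
  obtain ⟨b₀, hb₀⟩ := t6one c K hc hK
  refine ⟨b₀, fun b hb => ?_⟩
  obtain ⟨hb1, h⟩ := hb₀ b hb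
  refine ⟨hb1, fun r₀ hr₀ => ?_⟩
  obtain ⟨σ, η, h1, h2, h3, h4⟩ := h r₀ hr₀
  refine ⟨σ, η, h1, h2, h3, fun ε G hε hGo hGc hGa hV => ?_⟩
  have hεb : 0 < ε ^ b := by positivity
  have hε1 : ENNReal.ofReal (ε ^ b) ≠ 0 := by
    rw [Ne, ENNReal.ofReal_eq_zero, not_le]
    exact hεb
  have hmO := (Om_open b ε).measurableSet
  have hpre : pre ε (Om b ε ∩ G) = Om b 1 ∩ pre ε G := by
    rw [← pre_Om hε]
    rfl
  have hV' : c * volume.real (Om b 1) ≤ volume.real (Om b 1 ∩ pre ε G) := by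
    rw [vol_pre hε hmO, vol_pre hε (hmO.inter hGo.measurableSet), pre_Om hε, hpre,
      ← mul_assoc, mul_comm (ENNReal.ofReal c), mul_assoc,
      ENNReal.mul_le_mul_iff_right hε1 ENNReal.ofReal_ne_top] at hV
    have h5 := ENNReal.toReal_mono (measure_ne_top_of_subset inter_subset_left
      (Om_fin b one_pos)) hV
    rwa [ENNReal.toReal_mul, ENNReal.toReal_ofReal hc.le] at h5
  have hc1 : ∀ z ∈ pre ε G, ∀ t : ℝ, 0 < t → t • z ∈ pre ε G := by
    intro z hz t ht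
    have h5 := hGc _ hz t ht
    change mk (t • z).fst (ε • (t • z).snd) ∈ G
    have e : mk (t • z).fst (ε • (t • z).snd) = t • mk z.fst (ε • z.snd) := by
      change mk (t • z.fst) (ε • (t • z.snd)) = mk (t • z.fst) (t • (ε • z.snd))
      rw [smul_comm]
    rw [e]
    exact h5
  have hc2 : ∀ z ∈ pre ε G, ∀ w ∈ pre ε G, z + w ∈ pre ε G := by
    intro z hz w hw
    have h5 := hGa _ hz _ hw
    change mk (z + w).fst (ε • (z + w).snd) ∈ G
    have e : mk (z + w).fst (ε • (z + w).snd) = mk z.fst (ε • z.snd) + mk w.fst (ε • w.snd) := by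
      change mk (z.fst + w.fst) (ε • (z.snd + w.snd)) =
        mk (z.fst + w.fst) (ε • z.snd + ε • w.snd)
      rw [smul_add]
    rw [e]
    exact h5
  obtain ⟨u, hu, hx⟩ := h4 (pre ε G) (hGo.preimage (pre_cont ε)) hc1 hc2 hV'
  · refine ⟨u, hu, fun x hxW => ?_⟩
    have h5 := hx x hxW
    rw [vol_fib_pre hε, hpre, vb_scale hε hb1]
    calc ENNReal.ofReal (η * (ε ^ b * vb b 1)) =
          ENNReal.ofReal (ε ^ b) * ENNReal.ofReal (η * vb b 1) := by
            rw [← ENNReal.ofReal_mul hεb.le]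
            congr 1
            ring
      _ ≤ _ := by gcongr

/-! ### numerics -/

lemma exp_bound : (5.4 : ℝ) ≤ Real.exp 1.7 := by
  have h1 : Real.exp 1.7 = Real.exp 1 * (Real.exp 0.35 * Real.exp 0.35) := by
    rw [← Real.exp_add, ← Real.exp_add]
    norm_num
  have h2 : (1.41125 : ℝ) ≤ Real.exp 0.35 := by
    have := Real.quadratic_le_exp_of_nonneg (x := 0.35) (by norm_num)
    norm_num at this ⊢
    linarith
  have h3 := Real.exp_one_gt_d9
  rw [h1]
  have h4 : (1.41125 : ℝ) * 1.41125 ≤ Real.exp 0.35 * Real.exp 0.35 := by gcongr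
  nlinarith

lemma exp_bound8 : (1000 : ℝ) ≤ Real.exp 8 := by
  have h3 := Real.exp_one_gt_d9
  have h1 : Real.exp 8 = Real.exp 1 ^ 8 := by
    rw [← Real.exp_nat_mul]
    norm_num
  rw [h1]
  calc (1000 : ℝ) ≤ 2.7 ^ 8 := by norm_num
    _ ≤ Real.exp 1 ^ 8 := by
        apply pow_le_pow_left₀ (by norm_num)
        linarith

lemma one_sub_pow_le {t : ℝ} (ht1 : t ≤ 1) (n : ℕ) : (1 - t) ^ n ≤ Real.exp (-(n * t)) := by
  have h1 : 1 - t ≤ Real.exp (-t) := by
    have := Real.add_one_le_exp (-t)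
    linarith
  calc (1 - t) ^ n ≤ Real.exp (-t) ^ n := pow_le_pow_left₀ (by linarith) h1 n
    _ = Real.exp (-(n * t)) := by
        rw [← Real.exp_nat_mul]
        congr 1
        ring

/-- the half volume radius and the numerical inequality -/
lemma numerics {b : ℕ} (hb : 1000 ≤ b) : ∃ r : ℝ, 0 < r ∧ r < 1 ∧
    (1 - r) ^ (b + 1) * (1 + (b + 1) * r) = 1 / 2 ∧
    2 * π * r * (1 - r) ^ b ≤ 2 ∧
    2 * π * r * (1 - r) ^ b + 0.004 / (b + 1) ≤
      2 * ∫ ρ in (0.001 / ((b : ℝ) + 1))..(8 / b), (1 - ρ) ^ b := by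
  have hb' : (1000 : ℝ) ≤ b := by exact_mod_cast hb
  have hb0 : (0 : ℝ) < b := by linarith
  have hb1 : (0 : ℝ) < (b : ℝ) + 1 := by linarith
  set R : ℝ := 1.7 / ((b : ℝ) + 1) with hR
  have hR0 : 0 < R := by positivity
  have hRs : ((b : ℝ) + 1) * R = 1.7 := by rw [hR]; field_simp
  have hR1 : R ≤ 0.0017 := by
    rw [hR, div_le_iff₀ hb1]
    nlinarith
  obtain ⟨f, hf⟩ : ∃ f : ℝ → ℝ, f = fun r : ℝ => (1 - r) ^ (b + 1) * (1 + ((b : ℝ) + 1) * r) :=
    ⟨_, rfl⟩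
  have hfc : Continuous f := by rw [hf]; fun_prop
  have hf0 : f 0 = 1 := by rw [hf]; simp
  have hfR : f R ≤ 1 / 2 := by
    rw [hf]
    simp only
    have h1 := one_sub_pow_le (t := R) (by linarith) (b + 1)
    push_cast at h1
    rw [hRs] at h1 ⊢
    have h2 : Real.exp (-1.7) ≤ 1 / 5.4 := by
      rw [Real.exp_neg, ← one_div]
      exact one_div_le_one_div_of_le (by norm_num) exp_bound
    calc (1 - R) ^ (b + 1) * (1 + 1.7) ≤ 1 / 5.4 * (1 + 1.7) := by
          apply mul_le_mul_of_nonneg_right (h1.trans h2) (by norm_num)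
      _ ≤ 1 / 2 := by norm_num
  obtain ⟨r, ⟨hr0, hrR⟩, hrf⟩ := intermediate_value_Icc' hR0.le hfc.continuousOn
    (show (1 / 2 : ℝ) ∈ Icc (f R) (f 0) from ⟨hfR, by rw [hf0]; norm_num⟩)
  have hr0' : 0 < r := by
    rcases hr0.eq_or_lt with h | h
    · rw [← h, hf0] at hrf
      norm_num at hrf
    · exact h
  have hr1 : r ≤ 0.0017 := hrR.trans hR1
  have hrhalf : (1 - r) ^ (b + 1) * (1 + (b + 1) * r) = 1 / 2 := by
    rw [← hrf, hf]
  set s : ℝ := ((b : ℝ) + 1) * r with hs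
  have hs0 : 0 < s := by positivity
  have hs1 : s ≤ 1.7 := by
    rw [hs, ← hRs]
    gcongr
  have h1r : 0 < 1 - r := by linarith
  -- the perimeter
  have hper : 2 * π * r * (1 - r) ^ b = π * (s / ((1 + s) * (1 - r))) / (b + 1) := by
    have h1 : (1 - r) ^ b = 1 / (2 * (1 + s) * (1 - r)) := by
      rw [eq_div_iff (by positivity)]
      have h2 : (1 - r) ^ (b + 1) = (1 - r) ^ b * (1 - r) := pow_succ _ _
      rw [h2] at hrhalf
      linear_combination 2 * hrhalf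
    rw [h1, hs]
    field_simp
  have hper2 : π * (s / ((1 + s) * (1 - r))) ≤ 1.9815 := by
    have h1 : s / ((1 + s) * (1 - r)) ≤ 1.7 / (2.7 * 0.9983) := by
      rw [div_le_div_iff₀ (by positivity) (by norm_num)]
      have h2 : (1 + s) * 0.9983 ≤ (1 + s) * (1 - r) := by gcongr; linarith
      nlinarith
    have h2 := Real.pi_lt_d4
    have h3 : 0 ≤ s / ((1 + s) * (1 - r)) := by positivity
    calc π * (s / ((1 + s) * (1 - r))) ≤ 3.1416 * (1.7 / (2.7 * 0.9983)) := by gcongr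
      _ ≤ 1.9815 := by norm_num
  -- the integral
  have hint : ∫ ρ in (0.001 / ((b : ℝ) + 1))..(8 / b), (1 - ρ) ^ b =
      ((1 - 0.001 / ((b : ℝ) + 1)) ^ (b + 1) - (1 - 8 / (b : ℝ)) ^ (b + 1)) / (b + 1) := by
    have h2 : ∀ ρ ∈ uIcc (0.001 / ((b : ℝ) + 1)) (8 / b), HasDerivAt
        (fun ρ : ℝ => -((1 - ρ) ^ (b + 1)) / ((b : ℝ) + 1)) ((1 - ρ) ^ b) ρ := by
      intro ρ _
      have h3 : HasDerivAt (fun ρ : ℝ => (1 - ρ)) (-1) ρ := by
        simpa using (hasDerivAt_id ρ).const_sub 1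
      have h4 : HasDerivAt (fun ρ : ℝ => (1 - ρ) ^ (b + 1))
          (((b + 1 : ℕ) : ℝ) * (1 - ρ) ^ b * (-1)) ρ := by
        simpa using h3.fun_pow (b + 1)
      refine (h4.neg.div_const ((b : ℝ) + 1)).congr_deriv ?_
      push_cast
      field_simp
    rw [intervalIntegral.integral_eq_sub_of_hasDerivAt h2 ((by fun_prop : Continuous
      fun ρ : ℝ => (1 - ρ) ^ b).intervalIntegrable _ _)]
    ring
  have h8b : 8 / (b : ℝ) ≤ 1 := by
    rw [div_le_one hb0]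
    linarith
  have ha : 0.999 ≤ (1 - 0.001 / ((b : ℝ) + 1)) ^ (b + 1) := by
    have h1 := one_add_mul_le_pow (a := -(0.001 / ((b : ℝ) + 1))) (by
      have : 0.001 / ((b : ℝ) + 1) ≤ 1 := by
        rw [div_le_one hb1]
        linarith
      linarith) (b + 1)
    push_cast at h1
    have h2 : 1 + ((b : ℝ) + 1) * -(0.001 / ((b : ℝ) + 1)) = 0.999 := by
      field_simp
      norm_num
    rw [h2] at h1
    exact h1
  have hb3 : (1 - 8 / (b : ℝ)) ^ (b + 1) ≤ 0.001 := by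
    refine (one_sub_pow_le h8b (b + 1)).trans ?_
    have h1 : -(((b + 1 : ℕ) : ℝ) * (8 / b)) ≤ -8 := by
      push_cast
      have : (8 : ℝ) ≤ ((b : ℝ) + 1) * (8 / b) := by
        rw [← mul_div_assoc, le_div_iff₀ hb0]
        linarith
      linarith
    calc Real.exp (-(((b + 1 : ℕ) : ℝ) * (8 / b))) ≤ Real.exp (-8) := Real.exp_le_exp.2 h1
      _ ≤ 1 / 1000 := by
          rw [Real.exp_neg, ← one_div]
          exact one_div_le_one_div_of_le (by norm_num) exp_bound8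
      _ ≤ 0.001 := by norm_num
  refine ⟨r, hr0', by linarith, hrhalf, ?_, ?_⟩
  · rw [hper]
    rw [div_le_iff₀ hb1]
    linarith
  · rw [hper, hint, ← add_div, ← mul_div_assoc 2]
    refine div_le_div_of_nonneg_right ?_ hb1.le
    linarith

end Pool.Agent.U69.CN
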