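import Pool.Agent.U69.CN.Rot

/-!
# The cone problem (MP_65ff7c_an): the lower bound by the rotational field
-/

set_option autoImplicit false

open MeasureTheory Set Metric Filter Topology
open scoped ENNReal Real

noncomputable section

namespace Pool.Agent.U69.CN

open Pool.Agent.TH703.Cone

variable {b : ℕ}

lemma smooth_tend {t : ℝ} (ht : 0 < t) :
    Tendsto (fun n : ℕ => Real.smoothTransition (n * t - 1)) atTop (𝓝 1) := by
  refine tendsto_const_nhds.congr' ?_
  obtain ⟨N, hN⟩ := exists_nat_gt (2 / t)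
  filter_upwards [eventually_ge_atTop N] with n hn
  rw [Real.smoothTransition.one_of_one_le]
  have h1 : 2 / t < n := lt_of_lt_of_le hN (by exact_mod_cast hn)
  rw [div_lt_iff₀ ht] at h1
  linarith

lemma smooth_tend0 {t : ℝ} (ht : t ≤ 0) :
    Tendsto (fun n : ℕ => Real.smoothTransition (n * t - 1)) atTop (𝓝 0) := by
  refine tendsto_const_nhds.congr fun n => ?_
  rw [Real.smoothTransition.zero_of_nonpos]
  have : (n : ℝ) * t ≤ 0 := mul_nonpos_of_nonneg_of_nonpos (Nat.cast_nonneg n) ht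
  linarith

/-- the ring -/
def Rg (r₀ R₁ : ℝ) : Set ℂ := {x | r₀ < ‖x‖ ∧ ‖x‖ < R₁}

lemma Rg_meas (r₀ R₁ : ℝ) : MeasurableSet (Rg r₀ R₁) :=
  ((isOpen_lt continuous_const continuous_norm).inter
    (isOpen_lt continuous_norm continuous_const)).measurableSet

lemma qq_tend {ε r₀ R₁ : ℝ} (hε : 0 < ε) {z : W b} (hz : z ∈ Om b ε) :
    Tendsto (fun n : ℕ => qq ε r₀ R₁ n z) atTop
      (𝓝 ((Rg r₀ R₁).indicator (fun _ => 1) z.fst)) := by
  have h1 := smooth_tend ((mm_pos_iff hε (Om_norm_lt hε hz)).2 hz)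
  by_cases h2 : r₀ < ‖z.fst‖
  · by_cases h3 : ‖z.fst‖ < R₁
    · rw [indicator_of_mem (show z.fst ∈ Rg r₀ R₁ from ⟨h2, h3⟩)]
      have h4 := smooth_tend (sub_pos.2 h2)
      have h5 := smooth_tend (sub_pos.2 h3)
      simpa [qq] using (h1.mul h4).mul h5
    · rw [indicator_of_notMem (show z.fst ∉ Rg r₀ R₁ from fun h => h3 h.2)]
      have h4 := smooth_tend (sub_pos.2 h2)
      have h5 := smooth_tend0 (sub_nonpos.2 (not_lt.1 h3))
      simpa [qq] using (h1.mul h4).mul h5
  · rw [indicator_of_notMem (show z.fst ∉ Rg r₀ R₁ from fun h => h2 h.1)]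
    have h4 := smooth_tend0 (sub_nonpos.2 (not_lt.1 h2))
    refine tendsto_const_nhds.congr fun n => ?_
    unfold qq
    rw [Real.smoothTransition.zero_of_nonpos (x := n * (‖z.fst‖ - r₀) - 1), mul_zero, zero_mul]
    have : (n : ℝ) * (‖z.fst‖ - r₀) ≤ 0 :=
      mul_nonpos_of_nonneg_of_nonpos (Nat.cast_nonneg n) (by linarith)
    linarith

/-- the truncated angular derivative -/
def g0 (u : ℂ) (σ r₀ R₁ : ℝ) (x : ℂ) : ℝ := (Rg r₀ R₁).indicator (gg u σ) x

lemma g0_meas (u : ℂ) (σ r₀ R₁ : ℝ) : Measurable (g0 u σ r₀ R₁) :=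
  (measurable_gg u σ).indicator (Rg_meas r₀ R₁)

lemma g0_bound {M : ℝ} (hM : ∀ t, |deriv hh t| ≤ M) {u : ℂ} (hu : ‖u‖ = 1) {σ r₀ R₁ : ℝ}
    (hσ : 0 < σ) (hr₀ : 0 < r₀) (x : ℂ) : |g0 u σ r₀ R₁ x| ≤ M / (σ * r₀) := by
  have hM0 : 0 ≤ M := (abs_nonneg _).trans (hM 0)
  unfold g0
  by_cases hx : x ∈ Rg r₀ R₁
  · rw [indicator_of_mem hx]
    exact gg_bound hM hu hσ hr₀ hx.1.le
  · rw [indicator_of_notMem hx, abs_zero]
    positivity

/-- the perimeter bounds the integral of the angular derivative -/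
lemma int_g0_le {ε P : ℝ} {A : Set (W b)} {u : ℂ} {σ r₀ R₁ : ℝ} (hε : 0 < ε)
    (hA : MeasurableSet A) (hAΩ : A ⊆ Om b ε) (hP : PLE (Om b ε) A P) (hu : ‖u‖ = 1)
    (hσ : 0 < σ) (hr₀ : 0 < r₀) (hR1 : R₁ < 1) :
    ∫ z in A, g0 u σ r₀ R₁ z.fst ≤ P := by
  obtain ⟨M, hM0, hM⟩ := exists_M
  have hAfin : volume A ≠ ⊤ := ne_top_of_le_ne_top (Om_fin b hε) (measure_mono hAΩ)
  have hlim : Tendsto (fun n : ℕ => ∫ z in A, dv (ff u σ ε r₀ R₁ n : W b → W b) z) atTop
      (𝓝 (∫ z in A, g0 u σ r₀ R₁ z.fst)) := by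
    refine tendsto_integral_of_dominated_convergence (fun _ => M / (σ * r₀)) ?_ ?_ ?_ ?_
    · intro n
      exact (Pool.Agent.TH703.Cone.Div.continuous_dv
        (ff_contDiff hσ hr₀ n)).aestronglyMeasurable
    · exact (integrableOn_const hAfin enorm_ne_top)
    · intro n
      refine Eventually.of_forall fun z => ?_
      rw [dv_ff hσ hr₀, Real.norm_eq_abs, abs_mul, abs_of_nonneg (qq_nonneg _ _ _ _ _)]
      by_cases hz : z ∈ KK ε r₀ R₁ n
      · calc _ ≤ 1 * (M / (σ * r₀)) := by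
              gcongr
              · exact qq_le_one _ _ _ _ _
              · exact gg_bound hM hu hσ hr₀ (KK_r₀ hz).le
          _ = _ := one_mul _
      · rw [qq_zero hz, zero_mul]
        positivity
    · refine (ae_restrict_iff' hA).2 (Eventually.of_forall fun z hz => ?_)
      have h1 := (qq_tend (r₀ := r₀) (R₁ := R₁) hε (hAΩ hz)).mul_const (gg u σ z.fst)
      have h2 : (Rg r₀ R₁).indicator (fun _ => (1 : ℝ)) z.fst * gg u σ z.fst =
          g0 u σ r₀ R₁ z.fst := by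
        unfold g0
        by_cases hx : z.fst ∈ Rg r₀ R₁
        · rw [indicator_of_mem hx, indicator_of_mem hx, one_mul]
        · rw [indicator_of_notMem hx, indicator_of_notMem hx, zero_mul]
      rw [h2] at h1
      refine h1.congr fun n => ?_
      rw [dv_ff hσ hr₀]
  exact le_of_tendsto' hlim fun n => hP _ (ff_tst hσ hε hr₀ hR1 n)

/-- the half of the body -/
def Hf (b : ℕ) (u : ℂ) : Set (W b) := {z | 0 < (z.fst * u).re}

lemma Hf_meas (b : ℕ) (u : ℂ) : MeasurableSet (Hf b u) := by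
  have : Continuous fun z : W b => (z.fst * u).re :=
    Complex.continuous_re.comp (continuous_fst'.mul continuous_const)
  exact (isOpen_lt continuous_const this).measurableSet

/-- the integral over the half of the body -/
lemma int_half {ε : ℝ} {u : ℂ} {σ r₀ R₁ : ℝ} (hb : 1 ≤ b) (hε : 0 < ε) (hu : ‖u‖ = 1)
    (hσ : 0 < σ) (hσ1 : σ ≤ 1 / 2) (hr₀ : 0 < r₀) (hR : r₀ < R₁) (hR1 : R₁ < 1) :
    ∫ z in Om b ε ∩ Hf b u, g0 u σ r₀ R₁ z.fst = vb b ε * (2 * ∫ ρ in r₀..R₁, (1 - ρ) ^ b) := by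
  obtain ⟨M, hM0, hM⟩ := exists_M
  have hm : MeasurableSet (Om b ε ∩ Hf b u) := (Om_open b ε).measurableSet.inter (Hf_meas b u)
  have hfin : volume (Om b ε ∩ Hf b u) ≠ ⊤ :=
    ne_top_of_le_ne_top (Om_fin b hε) (measure_mono inter_subset_left)
  have hi : IntegrableOn (fun z : W b => g0 u σ r₀ R₁ z.fst) (Om b ε ∩ Hf b u) := by
    refine Measure.integrableOn_of_bounded (M := M / (σ * r₀)) hfin
      ((g0_meas u σ r₀ R₁).comp continuous_fst'.measurable).aestronglyMeasurable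
      (Eventually.of_forall fun z => ?_)
    exact g0_bound hM hu hσ hr₀ _
  rw [← integral_indicator hm, integ _ ((integrable_indicator_iff hm).2 hi),
    ← planar b hu hσ hσ1 hr₀ hR, ← integral_const_mul]
  refine integral_congr_ae (Eventually.of_forall fun x => ?_)
  simp only
  by_cases hx : x ∈ {x : ℂ | (r₀ < ‖x‖ ∧ ‖x‖ < R₁) ∧ 0 < (x * u).re}
  · rw [indicator_of_mem hx]
    have h1 : (fun y : B b => (Om b ε ∩ Hf b u).indicator (fun z => g0 u σ r₀ R₁ z.fst) (mk x y)) =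
        (fib (Om b ε) x).indicator fun _ => gg u σ x := by
      funext y
      by_cases hy : mk x y ∈ Om b ε
      · rw [indicator_of_mem (show mk x y ∈ Om b ε ∩ Hf b u from ⟨hy, hx.2⟩),
          indicator_of_mem (show y ∈ fib (Om b ε) x from hy), mk_fst]
        unfold g0
        rw [indicator_of_mem (show x ∈ Rg r₀ R₁ from hx.1)]
      · rw [indicator_of_notMem (show mk x y ∉ Om b ε ∩ Hf b u from fun h => hy h.1),
          indicator_of_notMem (show y ∉ fib (Om b ε) x from hy)]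
    rw [h1, integral_indicator (measurableSet_fib (Om_open b ε).measurableSet x),
      setIntegral_const, smul_eq_mul]
    have h2 : volume.real (fib (Om b ε) x) = vb b ε * (1 - ‖x‖) ^ b := by
      unfold Measure.real
      have hx1 : ‖x‖ < 1 := by linarith [hx.1.2]
      rw [vol_fib_Om hε hb, indicator_of_mem (by rwa [mem_ball_zero_iff]), ENNReal.toReal_mul,
        ENNReal.toReal_ofReal (vb_pos b hε).le,
        ENNReal.toReal_ofReal (pow_nonneg (by linarith) b)]
    rw [h2]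
    ring
  · rw [indicator_of_notMem hx, mul_zero]
    have h1 : (fun y : B b => (Om b ε ∩ Hf b u).indicator (fun z => g0 u σ r₀ R₁ z.fst)
        (mk x y)) = fun _ => 0 := by
      funext y
      by_cases hy : mk x y ∈ Om b ε ∩ Hf b u
      · rw [indicator_of_mem hy, mk_fst]
        unfold g0
        rw [indicator_of_notMem]
        exact fun h => hx ⟨h, hy.2⟩
      · rw [indicator_of_notMem hy]
    rw [h1, integral_zero]

/-- **T4.** -/
theorem t4 : ∃ M : ℝ, 0 < M ∧ ∀ (b : ℕ) (ε P : ℝ) (A : Set (W b)) (u : ℂ) (σ r₀ R₁ : ℝ),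
    1 ≤ b → 0 < ε → MeasurableSet A → A ⊆ Om b ε → PLE (Om b ε) A P → ‖u‖ = 1 →
    0 < σ → σ ≤ 1 / 2 → 0 < r₀ → r₀ < R₁ → R₁ < 1 →
    vb b ε * (2 * ∫ ρ in r₀..R₁, (1 - ρ) ^ b) ≤ P + M / (σ * r₀) *
      (volume.real {z | z ∈ Om b ε \ A ∧ z.fst ∈ Wp u σ r₀ R₁} +
        volume.real {z | z ∈ A ∧ -z.fst ∈ Wp u σ r₀ R₁}) := by
  obtain ⟨M, hM0, hM⟩ := exists_M
  refine ⟨M, hM0, fun b ε P A u σ r₀ R₁ hb hε hA hAΩ hP hu hσ hσ1 hr₀ hR hR1 => ?_⟩
  have hΩm := (Om_open b ε).measurableSet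
  have hHm := Hf_meas b u
  set C := M / (σ * r₀) with hC
  have hC0 : 0 ≤ C := by positivity
  have hgb : ∀ x, |g0 u σ r₀ R₁ x| ≤ C := g0_bound hM hu hσ hr₀
  have hgm : Measurable fun z : W b => g0 u σ r₀ R₁ z.fst :=
    (g0_meas u σ r₀ R₁).comp continuous_fst'.measurable
  have hi : ∀ S : Set (W b), S ⊆ Om b ε → IntegrableOn (fun z : W b => g0 u σ r₀ R₁ z.fst) S := by
    intro S hS
    exact Measure.integrableOn_of_bounded (M := C)
      (ne_top_of_le_ne_top (Om_fin b hε) (measure_mono hS)) hgm.aestronglyMeasurable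
      (Eventually.of_forall fun z => hgb _)
  -- a bound for the integral over a set
  have key : ∀ S T : Set (W b), MeasurableSet S → MeasurableSet T → S ⊆ Om b ε → T ⊆ S →
      (∀ z ∈ S, z ∉ T → g0 u σ r₀ R₁ z.fst = 0) →
      |∫ z in S, g0 u σ r₀ R₁ z.fst| ≤ C * volume.real T := by
    intro S T hS hT hSΩ hTS h0
    have h1 : ∫ z in S, g0 u σ r₀ R₁ z.fst = ∫ z in T, g0 u σ r₀ R₁ z.fst := by
      rw [← integral_indicator hS, ← integral_indicator hT]
      congr 1
      funext z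
      by_cases hz : z ∈ T
      · rw [indicator_of_mem hz, indicator_of_mem (hTS hz)]
      · rw [indicator_of_notMem hz]
        by_cases hz2 : z ∈ S
        · rw [indicator_of_mem hz2]
          exact h0 z hz2 hz
        · rw [indicator_of_notMem hz2]
    rw [h1]
    have hTfin : volume T < ⊤ :=
      (ne_top_of_le_ne_top (Om_fin b hε) (measure_mono (hTS.trans hSΩ))).lt_top
    have h2 := norm_setIntegral_le_of_norm_le_const (μ := volume) (s := T)
      (f := fun z : W b => g0 u σ r₀ R₁ z.fst) (C := C) hTfin fun z _ => hgb _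
    rwa [Real.norm_eq_abs] at h2
  have hD : MeasurableSet (Om b ε \ A) := hΩm.diff hA
  have e1 : ∫ z in Om b ε ∩ Hf b u, g0 u σ r₀ R₁ z.fst =
      (∫ z in A ∩ Hf b u, g0 u σ r₀ R₁ z.fst) +
        ∫ z in (Om b ε \ A) ∩ Hf b u, g0 u σ r₀ R₁ z.fst := by
    rw [← setIntegral_union ?_ (hD.inter hHm) (hi _ (inter_subset_left.trans hAΩ))
      (hi _ (inter_subset_left.trans sdiff_subset))]
    · congr 2
      ext z
      constructor
      · rintro ⟨h1, h2⟩
        by_cases h3 : z ∈ A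
        · exact Or.inl ⟨h3, h2⟩
        · exact Or.inr ⟨⟨h1, h3⟩, h2⟩
      · rintro (⟨h1, h2⟩ | ⟨h1, h2⟩)
        · exact ⟨hAΩ h1, h2⟩
        · exact ⟨h1.1, h2⟩
    · rw [Set.disjoint_left]
      rintro z ⟨h1, -⟩ ⟨h2, -⟩
      exact h2.2 h1
  have e2 : ∫ z in A, g0 u σ r₀ R₁ z.fst = (∫ z in A ∩ Hf b u, g0 u σ r₀ R₁ z.fst) +
      ∫ z in A \ Hf b u, g0 u σ r₀ R₁ z.fst :=
    (integral_inter_add_sdiff hHm (hi _ hAΩ)).symm
  have hWcl : ∀ x : ℂ, g0 u σ r₀ R₁ x ≠ 0 → 0 < (x * u).re → x ∈ Wp u σ r₀ R₁ := by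
    intro x hx hre
    unfold g0 at hx
    by_cases h1 : x ∈ Rg r₀ R₁
    · rw [indicator_of_mem h1] at hx
      refine ⟨h1.1.le, h1.2.le, hre, ?_⟩
      by_contra hc
      exact hx (gg_zero hσ (not_le.1 hc))
    · rw [indicator_of_notMem h1] at hx
      exact absurd rfl hx
  have hWm : MeasurableSet (Wp u σ r₀ R₁) := by
    have c1 : Continuous fun x : ℂ => (x * u).re :=
      Complex.continuous_re.comp (continuous_id.mul continuous_const)
    have c2 : Continuous fun x : ℂ => |(x * u).im| :=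
      (Complex.continuous_im.comp (continuous_id.mul continuous_const)).abs
    exact ((isClosed_le continuous_const continuous_norm).measurableSet).inter
      (((isClosed_le continuous_norm continuous_const).measurableSet).inter
        (((isOpen_lt continuous_const c1).measurableSet).inter
          ((isClosed_le c2 (continuous_const.mul continuous_norm)).measurableSet)))
  have e3 : |∫ z in (Om b ε \ A) ∩ Hf b u, g0 u σ r₀ R₁ z.fst| ≤
      C * volume.real {z | z ∈ Om b ε \ A ∧ z.fst ∈ Wp u σ r₀ R₁} := by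
    refine key _ _ (hD.inter hHm) (hD.inter (continuous_fst'.measurable hWm))
      (inter_subset_left.trans sdiff_subset) ?_ ?_
    · rintro z ⟨h1, h2⟩
      exact ⟨h1, h2.2.2.1⟩
    · rintro z ⟨h1, h2⟩ h3
      by_contra hc
      exact h3 ⟨h1, hWcl _ hc h2⟩
  have e4 : |∫ z in A \ Hf b u, g0 u σ r₀ R₁ z.fst| ≤
      C * volume.real {z | z ∈ A ∧ -z.fst ∈ Wp u σ r₀ R₁} := by
    refine key _ _ (hA.diff hHm) (hA.inter ((continuous_fst'.neg).measurable hWm))
      (sdiff_subset.trans hAΩ) ?_ ?_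
    · rintro z ⟨h1, h2⟩
      refine ⟨h1, fun h3 => ?_⟩
      have h4 : 0 < (-z.fst * u).re := h2.2.2.1
      have h5 : 0 < (z.fst * u).re := h3
      rw [neg_mul, Complex.neg_re] at h4
      linarith
    · rintro z ⟨h1, h2⟩ h3
      by_contra hc
      unfold g0 at hc
      by_cases h4 : z.fst ∈ Rg r₀ R₁
      · rw [indicator_of_mem h4] at hc
        apply h3
        refine ⟨h1, ?_, ?_, ?_, ?_⟩
        · rw [norm_neg]
          exact h4.1.le
        · rw [norm_neg]
          exact h4.2.le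
        · rw [neg_mul, Complex.neg_re, Left.neg_pos_iff]
          rcases lt_trichotomy (z.fst * u).re 0 with h5 | h5 | h5
          · exact h5
          · exfalso
            apply hc
            unfold gg
            rw [h5, zero_div, mul_zero]
          · exact absurd h5 h2
        · rw [neg_mul, Complex.neg_im, abs_neg, norm_neg]
          by_contra h5
          exact hc (gg_zero hσ (not_le.1 h5))
      · rw [indicator_of_notMem h4] at hc
        exact hc rfl
  have e5 := int_g0_le (u := u) (σ := σ) (r₀ := r₀) (R₁ := R₁) hε hA hAΩ hP hu hσ hr₀ hR1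
  have e6 := int_half (b := b) (ε := ε) hb hε hu hσ hσ1 hr₀ hR hR1
  rw [← e6, e1]
  have e7 := abs_le.1 e3
  have e8 := abs_le.1 e4
  rw [e2] at e5
  rw [mul_add]
  linarith [e7.1, e7.2, e8.1, e8.2]

end Pool.Agent.U69.CN
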