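import Pool.Agent.U69.CN.Mom

/-!
# The cone problem (MP_65ff7c_an): geometry of the cones of large volume
-/

set_option autoImplicit false

open MeasureTheory Set Metric Filter Topology
open scoped ENNReal Real

noncomputable section

namespace Pool.Agent.U69.CN

open Pool.Agent.TH703.Cone

variable {b : ℕ}

lemma norm_mk_le (x : ℂ) (y : B b) : ‖mk x y‖ ≤ ‖x‖ + ‖y‖ := by
  have h := norm_mk_sq x y
  have h1 : ‖mk x y‖ ^ 2 ≤ (‖x‖ + ‖y‖) ^ 2 := by
    rw [h]
    nlinarith [norm_nonneg x, norm_nonneg y]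
  exact le_of_sq_le_sq h1 (by positivity)

/-- a vector of the wedge is close to its projection -/
lemma wedge_close {w : ℂ} {σ : ℝ} (hσ : 0 ≤ σ) (hσ1 : σ ≤ 1) (hre : 0 < w.re)
    (him : |w.im| ≤ σ * ‖w‖) : ‖w - (‖w‖ : ℂ)‖ ≤ 2 * σ * ‖w‖ := by
  have hw : 0 < ‖w‖ := norm_pos_iff.2 fun h => by rw [h] at hre; simp at hre
  have h1 : ‖w‖ ^ 2 = w.re ^ 2 + w.im ^ 2 := by
    rw [Complex.sq_norm, Complex.normSq_apply]
    ring
  have h2 : ‖w‖ - w.re ≤ σ * ‖w‖ := by
    have h3 : w.im ^ 2 ≤ (σ * ‖w‖) ^ 2 := by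
      rw [← sq_abs w.im]
      exact pow_le_pow_left₀ (abs_nonneg _) him 2
    have h4 : (‖w‖ - w.re) * (‖w‖ + w.re) ≤ (σ * ‖w‖) ^ 2 := by nlinarith
    have h5 : w.re ≤ ‖w‖ := (le_abs_self _).trans (Complex.abs_re_le_norm w)
    have h6 : (‖w‖ - w.re) * ‖w‖ ≤ (σ * ‖w‖) ^ 2 := by
      have : (‖w‖ - w.re) * ‖w‖ ≤ (‖w‖ - w.re) * (‖w‖ + w.re) := by
        apply mul_le_mul_of_nonneg_left _ (by linarith)
        linarith
      linarith
    have h7 : (σ * ‖w‖) ^ 2 ≤ (σ * ‖w‖) * ‖w‖ := by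
      rw [sq]
      apply mul_le_mul_of_nonneg_left _ (by positivity)
      nlinarith
    exact le_of_mul_le_mul_right (h6.trans h7) hw
  have h3 : w - (‖w‖ : ℂ) = ((w.re - ‖w‖ : ℝ) : ℂ) + (w.im : ℂ) * Complex.I := by
    apply Complex.ext <;> simp
  have h5 : w.re ≤ ‖w‖ := (le_abs_self _).trans (Complex.abs_re_le_norm w)
  rw [h3]
  calc _ ≤ ‖((w.re - ‖w‖ : ℝ) : ℂ)‖ + ‖(w.im : ℂ) * Complex.I‖ := norm_add_le _ _
    _ = (‖w‖ - w.re) + |w.im| := by
        rw [norm_mul, Complex.norm_I, mul_one, Complex.norm_real, Complex.norm_real,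
          Real.norm_eq_abs, Real.norm_eq_abs, abs_of_nonpos (by linarith : w.re - ‖w‖ ≤ 0)]
        ring
    _ ≤ 2 * σ * ‖w‖ := by linarith

lemma key_ineq {b c K V v J v₀ X Y : ℝ} (hc : 0 < c) (hK : 1 < K) (hb1 : 1 < b)
    (hb2 : 2 * K < b) (hb3 : 2048 * K ^ 2 / c ^ 3 < b) (hV : 0 < V) (hv : 0 < v) (hvV : v ≤ V)
    (hv₀ : v₀ = √(c / 2) / (b + 1) * (c / 2 * V) / 4) (hJ : v₀ ≤ J) (hX : J / v ≤ X)
    (hY2 : Y ^ 2 ≤ V / (b * v)) : Y ≤ X * (b / K - 1) := by
  have hbp : 0 < b := by linarith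
  have hKp : 0 < K := by linarith
  have hv₀0 : 0 < v₀ := by rw [hv₀]; positivity
  have hJ0 : 0 < J := by linarith
  have hX0 : 0 < X := lt_of_lt_of_le (by positivity) hX
  have hsq : √(c / 2) ^ 2 = c / 2 := Real.sq_sqrt (by positivity)
  have hq : b / (2 * K) ≤ b / K - 1 := by
    rw [div_le_iff₀ (by positivity)]
    have : (b / K - 1) * (2 * K) = 2 * b - 2 * K := by field_simp
    rw [this]
    linarith
  have hq0 : 0 ≤ b / K - 1 := le_trans (by positivity) hq
  refine le_of_sq_le_sq (hY2.trans ?_) (by positivity)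
  have h1 : J / v * (b / (2 * K)) ≤ X * (b / K - 1) := by gcongr
  have h2 : (J / v * (b / (2 * K))) ^ 2 ≤ (X * (b / K - 1)) ^ 2 :=
    pow_le_pow_left₀ (by positivity) h1 2
  refine le_trans ?_ h2
  have h3 : v₀ ^ 2 ≤ J ^ 2 := pow_le_pow_left₀ hv₀0.le hJ 2
  have h4 : v₀ ^ 2 = c ^ 3 * V ^ 2 / (128 * (b + 1) ^ 2) := by
    rw [hv₀]
    have : (√(c / 2) / (b + 1) * (c / 2 * V) / 4) ^ 2 =
        √(c / 2) ^ 2 * (c ^ 2 * V ^ 2) / (64 * (b + 1) ^ 2) := by
      field_simp
      ring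
    rw [this, hsq]
    field_simp
    ring
  have h5 : c ^ 3 * V ^ 2 / (512 * b ^ 2) ≤ J ^ 2 := by
    refine le_trans ?_ h3
    rw [h4]
    apply div_le_div_of_nonneg_left (by positivity) (by positivity)
    have : (b + 1) ^ 2 ≤ (2 * b) ^ 2 := pow_le_pow_left₀ (by positivity) (by linarith) 2
    linarith
  rw [div_lt_iff₀ (by positivity)] at hb3
  have h6 : V / (b * v) ≤ c ^ 3 * V ^ 2 / (512 * b ^ 2) * (b ^ 2 / (4 * K ^ 2 * v ^ 2)) := by
    rw [div_mul_div_comm, div_le_div_iff₀ (by positivity) (by positivity)]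
    have e1 : V * (512 * b ^ 2 * (4 * K ^ 2 * v ^ 2)) =
        (2048 * K ^ 2) * (V * v * (v * b ^ 2)) := by ring
    have e2 : c ^ 3 * V ^ 2 * b ^ 2 * (b * v) = (b * c ^ 3) * (V * V * (v * b ^ 2)) := by
      ring
    rw [e1, e2]
    gcongr
  refine h6.trans ?_
  have e3 : (J / v * (b / (2 * K))) ^ 2 = J ^ 2 * (b ^ 2 / (4 * K ^ 2 * v ^ 2)) := by
    field_simp
    ring
  rw [e3]
  gcongr

lemma abs_split (a : ℝ) : |a| = max a 0 + max (-a) 0 := by
  rcases le_total 0 a with h | h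
  · rw [abs_of_nonneg h, max_eq_left h, max_eq_right (by linarith)]
    ring
  · rw [abs_of_nonpos h, max_eq_right h, max_eq_left (by linarith)]
    ring

/-- **T6** for `ε = 1`. -/
theorem t6one (c K : ℝ) (hc : 0 < c) (hK : 1 < K) : ∃ b₀ : ℕ, ∀ b : ℕ, b₀ ≤ b → 1 ≤ b ∧
    ∀ r₀ : ℝ, 0 < r₀ → ∃ σ η : ℝ, 0 < σ ∧ σ ≤ 1 / 2 ∧ 0 < η ∧ ∀ G : Set (W b), IsOpen G →
      (∀ z ∈ G, ∀ t : ℝ, 0 < t → t • z ∈ G) → (∀ z ∈ G, ∀ w ∈ G, z + w ∈ G) →
      c * volume.real (Om b 1) ≤ volume.real (Om b 1 ∩ G) →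
      ∃ u : ℂ, ‖u‖ = 1 ∧ ∀ x ∈ Wp u σ r₀ ((K - 1) / b),
        ENNReal.ofReal (η * vb b 1) ≤ volume (fib (Om b 1 ∩ G) x) := by
  obtain ⟨b₀, hb₀⟩ := exists_nat_gt (max (max 1 (2 * K)) (2048 * K ^ 2 / c ^ 3))
  refine ⟨b₀, fun b hb => ?_⟩
  have hbb : max (max 1 (2 * K)) (2048 * K ^ 2 / c ^ 3) < (b : ℝ) :=
    lt_of_lt_of_le hb₀ (by exact_mod_cast hb)
  have hb1 : (1 : ℝ) < b := lt_of_le_of_lt ((le_max_left _ _).trans (le_max_left _ _)) hbb
  have hb2 : 2 * K < b := lt_of_le_of_lt ((le_max_right _ _).trans (le_max_left _ _)) hbb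
  have hb3 : 2048 * K ^ 2 / c ^ 3 < b := lt_of_le_of_lt (le_max_right _ _) hbb
  have hb1' : 1 ≤ b := by exact_mod_cast hb1.le
  refine ⟨hb1', fun r₀ hr₀ => ?_⟩
  have hbp : (0 : ℝ) < b := by linarith
  set V := volume.real (Om b 1) with hVd
  have hV : 0 < V := vol_Om_pos hb1' one_pos
  by_cases hc1 : c ≤ 1
  swap
  · refine ⟨1 / 2, 1, by norm_num, le_rfl, one_pos, fun G _ _ _ h => ?_⟩
    exfalso
    have h1 : volume.real (Om b 1 ∩ G) ≤ V :=
      measureReal_mono inter_subset_left (Om_fin b one_pos)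
    nlinarith
  have hΩm := (Om_open b 1).measurableSet
  have hΩfin := Om_fin b one_pos
  set δ : ℝ := √(c / 2) / (b + 1) with hδ
  have hsq : √(c / 2) ^ 2 = c / 2 := Real.sq_sqrt (by positivity)
  have hsp : 0 < √(c / 2) := Real.sqrt_pos.2 (by positivity)
  have hδ0 : 0 < δ := by positivity
  have hδ1 : δ ≤ 1 := by
    rw [hδ, div_le_one (by positivity)]
    have : √(c / 2) ≤ 1 := by
      rw [Real.sqrt_le_one]
      linarith
    linarith
  set v₀ : ℝ := δ * (c / 2 * V) / 4 with hv₀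
  have hv₀0 : 0 < v₀ := by positivity
  obtain ⟨R, hR⟩ := (Om_bounded b one_pos).subset_closedBall 0
  obtain ⟨ρ, hρ, hball⟩ := bary (E := W b) (R := max R 1) (by positivity) hv₀0
  refine ⟨min (1 / 2) (ρ / 4), (min (r₀ * ρ / 2) (1 / (2 * K))) ^ b, by positivity,
    min_le_left _ _, by positivity, fun G hGo hGc hGa hGV => ?_⟩
  set σ := min (1 / 2) (ρ / 4) with hσ
  have hσ0 : 0 < σ := by positivity
  have hσ1 : σ ≤ 1 / 2 := min_le_left _ _
  have hσ2 : σ ≤ ρ / 4 := min_le_right _ _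
  set τ := min (r₀ * ρ / 2) (1 / (2 * K)) with hτ
  have hτ0 : 0 < τ := by positivity
  have hτ1 : τ ≤ r₀ * ρ / 2 := min_le_left _ _
  have hτ2 : τ ≤ 1 / (2 * K) := min_le_right _ _
  -- the part of the body in the cone
  set D : Set (W b) := Om b 1 ∩ G with hD
  have hDo : IsOpen D := (Om_open b 1).inter hGo
  have hDΩ : D ⊆ Om b 1 := inter_subset_left
  have hcf : Continuous fun z : W b => ‖z.fst‖ := continuous_fst'.norm
  have hI₀ : δ * (c / 2 * V) ≤ ∫ z in D, ‖z.fst‖ := by
    set D' : Set (W b) := D ∩ {z | δ ≤ ‖z.fst‖} with hD'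
    have hD'm : MeasurableSet D' :=
      hDo.measurableSet.inter (isClosed_le continuous_const hcf).measurableSet
    have h1 : c / 2 * V ≤ volume.real D' := by
      have h2 : volume.real D ≤ volume.real D' +
          volume.real {z : W b | z ∈ Om b 1 ∧ ‖z.fst‖ < δ} := by
        refine le_trans (measureReal_mono ?_ ?_) (measureReal_union_le _ _)
        · intro z hz
          by_cases h3 : δ ≤ ‖z.fst‖
          · exact Or.inl ⟨hz, h3⟩
          · exact Or.inr ⟨hDΩ hz, not_le.1 h3⟩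
        · refine measure_ne_top_of_subset (union_subset ?_ fun z hz => hz.1) hΩfin
          exact inter_subset_left.trans hDΩ
      have h3 := vol_cyl_le (b := b) hb1' one_pos hδ0.le hδ1
      have h4 : (((b : ℝ) + 1) * δ) ^ 2 = c / 2 := by
        rw [hδ, mul_div_cancel₀ _ (by positivity : ((b : ℝ) + 1) ≠ 0), hsq]
      rw [h4] at h3
      linarith
    calc δ * (c / 2 * V) ≤ δ * volume.real D' := by gcongr
      _ = ∫ _z in D', δ := by rw [setIntegral_const, smul_eq_mul, mul_comm]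
      _ ≤ ∫ z in D', ‖z.fst‖ := by
          refine setIntegral_mono_on (int_cont one_pos (inter_subset_left.trans hDΩ)
            continuous_const) (int_cont one_pos (inter_subset_left.trans hDΩ) hcf) hD'm
            fun z hz => hz.2
      _ ≤ ∫ z in D, ‖z.fst‖ := setIntegral_mono_set (int_cont one_pos hDΩ hcf)
          (Eventually.of_forall fun z => norm_nonneg _) (LE.le.eventuallyLE inter_subset_left)
  have hcm : ∀ w : ℂ, Continuous fun z : W b => (z.fst * w).re := fun w =>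
    Complex.continuous_re.comp (continuous_fst'.mul continuous_const)
  have hcm2 : ∀ w : ℂ, Continuous fun z : W b => max (z.fst * w).re 0 := fun w =>
    (hcm w).max continuous_const
  obtain ⟨J, hJ⟩ : ∃ J : ℂ → ℝ, J = fun w => ∫ z in D, max (z.fst * w).re 0 := ⟨_, rfl⟩
  have hsum : ∫ z in D, ‖z.fst‖ ≤ J 1 + J (-1) + (J Complex.I + J (-Complex.I)) := by
    have hi : ∀ w : ℂ, IntegrableOn (fun z : W b => max (z.fst * w).re 0) D := fun w =>
      int_cont one_pos hDΩ (hcm2 w)
    have hi2 : ∀ w w' : ℂ, IntegrableOn (fun z : W b => max (z.fst * w).re 0 +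
        max (z.fst * w').re 0) D := fun w w' => (hi w).add (hi w')
    rw [hJ]
    simp only
    rw [← integral_add (hi 1) (hi (-1)), ← integral_add (hi Complex.I) (hi (-Complex.I)),
      ← integral_add (hi2 1 (-1)) (hi2 Complex.I (-Complex.I))]
    refine setIntegral_mono_on (int_cont one_pos hDΩ hcf) ((hi2 _ _).add (hi2 _ _))
      hDo.measurableSet fun z _ => ?_
    refine (Complex.norm_le_abs_re_add_abs_im z.fst).trans ?_
    rw [abs_split z.fst.re, abs_split z.fst.im]
    have e1 : (z.fst * 1).re = z.fst.re := by simp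
    have e2 : (z.fst * (-1)).re = -z.fst.re := by simp
    have e3 : (z.fst * Complex.I).re = -z.fst.im := by simp
    have e4 : (z.fst * (-Complex.I)).re = z.fst.im := by simp
    rw [e1, e2, e3, e4]
    linarith
  obtain ⟨w, hw1, hwJ⟩ : ∃ w : ℂ, ‖w‖ = 1 ∧ v₀ ≤ J w := by
    have h4 : 4 * v₀ ≤ J 1 + J (-1) + (J Complex.I + J (-Complex.I)) := by
      rw [hv₀]
      linarith
    by_contra hcon
    push Not at hcon
    have a1 := hcon 1 (by simp)
    have a2 := hcon (-1) (by simp)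
    have a3 := hcon Complex.I (by simp)
    have a4 := hcon (-Complex.I) (by simp)
    linarith
  set C : Set (W b) := D ∩ Hf b w with hCd
  have hHo : IsOpen (Hf b w) := isOpen_lt continuous_const (hcm w)
  have hCo : IsOpen C := hDo.inter hHo
  have hCm := hCo.measurableSet
  have hCΩ : C ⊆ Om b 1 := inter_subset_left.trans hDΩ
  have hCfin : volume C ≠ ⊤ := measure_ne_top_of_subset hCΩ hΩfin
  have hGconv : Convex ℝ G := by
    intro z hz w' hw' s t hs ht hst
    rcases hs.eq_or_lt with rfl | hs'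
    · have : t = 1 := by linarith
      subst this
      rw [zero_smul, zero_add, one_smul]
      exact hw'
    · rcases ht.eq_or_lt with rfl | ht'
      · have : s = 1 := by linarith
        subst this
        rw [zero_smul, add_zero, one_smul]
        exact hz
      · exact hGa _ (hGc z hz s hs') _ (hGc w' hw' t ht')
  have hHconv : Convex ℝ (Hf b w) := by
    intro z hz w' hw' s t hs ht hst
    have h1 : 0 < (z.fst * w).re := hz
    have h2 : 0 < (w'.fst * w).re := hw'
    change 0 < ((s • z + t • w').fst * w).re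
    have e : ((s • z + t • w').fst * w).re = s * (z.fst * w).re + t * (w'.fst * w).re := by
      rw [WithLp.add_fst, WithLp.smul_fst, WithLp.smul_fst, add_mul, Complex.add_re,
        smul_mul_assoc, smul_mul_assoc, Complex.smul_re, Complex.smul_re]
      rfl
    rw [e]
    rcases hs.eq_or_lt with rfl | hs'
    · have : t = 1 := by linarith
      subst this
      linarith
    · positivity
  have hCc : Convex ℝ C := ((Om_convex b one_pos).inter hGconv).inter hHconv
  set v := volume.real C with hvd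
  have hJC : J w = ∫ z in C, (z.fst * w).re := by
    rw [hJ]
    simp only
    rw [← integral_indicator hDo.measurableSet, ← integral_indicator hCm]
    refine integral_congr_ae (Eventually.of_forall fun z => ?_)
    by_cases h1 : z ∈ D
    · by_cases h2 : z ∈ Hf b w
      · rw [indicator_of_mem h1, indicator_of_mem (show z ∈ C from ⟨h1, h2⟩)]
        exact max_eq_left (le_of_lt h2)
      · rw [indicator_of_mem h1, indicator_of_notMem (show z ∉ C from fun h => h2 h.2)]
        exact max_eq_right (not_lt.1 h2)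
    · rw [indicator_of_notMem h1, indicator_of_notMem (show z ∉ C from fun h => h1 h.1)]
  have hJv : J w ≤ v := by
    rw [hJC]
    calc _ ≤ ∫ _z in C, (1 : ℝ) := by
          refine setIntegral_mono_on (int_cont one_pos hCΩ (hcm w)) (int_cont one_pos hCΩ
            continuous_const) hCm fun z hz => ?_
          refine ((le_abs_self _).trans (Complex.abs_re_le_norm _)).trans ?_
          rw [norm_mul, hw1, mul_one]
          exact (Om_norm_lt one_pos (hCΩ hz)).le
      _ = v := by rw [setIntegral_const, smul_eq_mul, mul_one]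
  have hv0 : 0 < v := by linarith
  have hvV : v ≤ V := measureReal_mono hCΩ hΩfin
  have hb4 := hball C hCo hCc (hCΩ.trans (hR.trans (closedBall_subset_closedBall
    (le_max_left _ _)))) (by rw [← hvd]; linarith)
  rw [← hvd] at hb4
  have hidi : IntegrableOn (fun z : W b => z) C := int_cont one_pos hCΩ continuous_id
  set g : W b := v⁻¹ • ∫ z in C, z with hg
  have hgX : g.fst = v⁻¹ • ∫ z in C, z.fst := by
    have := (pL b).integral_comp_comm hidi
    rw [hg, WithLp.smul_fst]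
    congr 1
    exact this.symm
  have hgY : g.snd = v⁻¹ • ∫ z in C, z.snd := by
    have := (pR b).integral_comp_comm hidi
    rw [hg, WithLp.smul_snd]
    congr 1
    exact this.symm
  have hgC : g ∈ C := hb4 (mem_ball_self hρ)
  set X := g.fst with hX
  set Y := g.snd with hY
  have hXw : (X * w).re = J w / v := by
    have h1 : ∫ z in C, (z.fst * w).re = ((∫ z in C, z.fst) * w).re := by
      have h2 : ∀ z : ℂ, (z * w).re = (Complex.reCLM.comp
          ((ContinuousLinearMap.mul ℝ ℂ).flip w)) z := fun z => rfl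
      simp_rw [h2]
      exact ContinuousLinearMap.integral_comp_comm _ (int_cont one_pos hCΩ continuous_fst')
    rw [hJC, h1, hgX, smul_mul_assoc, Complex.smul_re, smul_eq_mul]
    field_simp
  have hXl : J w / v ≤ ‖X‖ := by
    rw [← hXw]
    refine ((le_abs_self _).trans (Complex.abs_re_le_norm _)).trans ?_
    rw [norm_mul, hw1, mul_one]
  have hX0 : 0 < ‖X‖ := lt_of_lt_of_le (div_pos (by linarith) hv0) hXl
  have hX1 : ‖X‖ < 1 := Om_norm_lt one_pos (hCΩ hgC)
  have hYl : ‖Y‖ ^ 2 ≤ V / (b * v) := by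
    rw [hgY]
    exact mean_snd hb1' hCm hCΩ hv0
  have hkey : ‖Y‖ ≤ ‖X‖ * (b / K - 1) :=
    key_ineq hc hK hb1 hb2 hb3 hV hv0 hvV (by rw [hv₀, hδ]) hwJ hXl hYl
  -- the direction
  set u : ℂ := (starRingEnd ℂ X) * ((‖X‖ : ℂ))⁻¹ with hu
  have hXc : (‖X‖ : ℂ) ≠ 0 := by exact_mod_cast hX0.ne'
  have hun : ‖u‖ = 1 := by
    rw [hu, norm_mul, norm_inv, Complex.norm_real, norm_norm, RCLike.norm_conj,
      mul_inv_cancel₀ hX0.ne']
  have hXu : X * u = (‖X‖ : ℂ) := by
    rw [hu, ← mul_assoc, Complex.mul_conj, Complex.normSq_eq_norm_sq]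
    push_cast
    field_simp
  refine ⟨u, hun, fun x hx => ?_⟩
  obtain ⟨hx1, hx2, hx3, hx4⟩ := hx
  have hxp : 0 < ‖x‖ := by linarith
  set t : ℝ := ‖x‖ / ‖X‖ with ht
  have ht0 : 0 < t := by positivity
  have htr : r₀ ≤ t := by
    rw [ht, le_div_iff₀ hX0]
    calc r₀ * ‖X‖ ≤ r₀ * 1 := mul_le_mul_of_nonneg_left hX1.le hr₀.le
      _ ≤ ‖x‖ := by rw [mul_one]; exact hx1
  have htX : t * ‖X‖ = ‖x‖ := by rw [ht]; field_simp
  have hsub : ball (t • Y) τ ⊆ fib D x := by
    intro y hy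
    rw [mem_ball, dist_eq_norm] at hy
    have hy1 : ‖y‖ < t * ‖Y‖ + τ := by
      calc ‖y‖ = ‖(y - t • Y) + t • Y‖ := by rw [sub_add_cancel]
        _ ≤ ‖y - t • Y‖ + ‖t • Y‖ := norm_add_le _ _
        _ < τ + t * ‖Y‖ := by
            rw [norm_smul, Real.norm_of_nonneg ht0.le]
            linarith
        _ = t * ‖Y‖ + τ := by ring
    change mk x y ∈ D
    constructor
    · rw [mem_Om, mk_fst, mk_snd, div_one]
      have h1 : t * ‖Y‖ ≤ ‖x‖ * (b / K - 1) := by
        rw [← htX, mul_assoc]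
        gcongr
      have h2 : ‖x‖ * (b / K) ≤ (K - 1) / K := by
        calc ‖x‖ * (b / K) ≤ (K - 1) / b * (b / K) := by gcongr
          _ = (K - 1) / K := by field_simp
      have h3 : (K - 1) / K + 1 / (2 * K) < 1 := by
        have : (K - 1) / K + 1 / (2 * K) = 1 - 1 / (2 * K) := by
          field_simp
          ring
        rw [this]
        have : 0 < 1 / (2 * K) := by positivity
        linarith
      have h4 : ‖x‖ * (b / K - 1) = ‖x‖ * (b / K) - ‖x‖ := by ring
      rw [h4] at h1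
      clear hb4 hball
      linarith only [h1, h2, h3, hy1, hτ2]
    · have hz : mk x y = t • (t⁻¹ • mk x y) := by
        rw [smul_smul, mul_inv_cancel₀ ht0.ne', one_smul]
      rw [hz]
      refine hGc _ ?_ t ht0
      have hmem : t⁻¹ • mk x y ∈ ball g ρ := by
        rw [mem_ball, dist_eq_norm]
        have e1 : t⁻¹ • mk x y - g = mk (t⁻¹ • x - X) (t⁻¹ • y - Y) := rfl
        rw [e1]
        have h1 : ‖t⁻¹ • x - X‖ ≤ 2 * σ := by
          have h2 : ‖t⁻¹ • x - X‖ = ‖(t⁻¹ • x - X) * u‖ := by rw [norm_mul, hun, mul_one]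
          set w' : ℂ := t⁻¹ • (x * u) with hw'
          have h3 : (t⁻¹ • x - X) * u = w' - (‖X‖ : ℂ) := by
            rw [sub_mul, hXu, hw', smul_mul_assoc]
          have h4 : ‖w'‖ = ‖X‖ := by
            rw [hw', norm_smul, norm_mul, hun, mul_one, norm_inv, Real.norm_of_nonneg ht0.le,
              ← htX]
            field_simp
          have h5 : 0 < w'.re := by
            rw [hw', Complex.smul_re, smul_eq_mul]
            positivity
          have h6 : |w'.im| ≤ σ * ‖w'‖ := by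
            rw [hw', Complex.smul_im, smul_eq_mul, abs_mul, abs_of_pos (inv_pos.2 ht0),
              norm_smul, norm_mul, hun, mul_one, norm_inv, Real.norm_of_nonneg ht0.le]
            calc t⁻¹ * |(x * u).im| ≤ t⁻¹ * (σ * ‖x‖) := by gcongr
              _ = σ * (t⁻¹ * ‖x‖) := by ring
          have h7 := wedge_close hσ0.le (by linarith) h5 h6
          rw [h4] at h7
          rw [h2, h3]
          calc _ ≤ 2 * σ * ‖X‖ := h7
            _ ≤ 2 * σ * 1 := by gcongr
            _ = 2 * σ := mul_one _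
        have h2 : ‖t⁻¹ • y - Y‖ < ρ / 2 := by
          have e2 : t⁻¹ • y - Y = t⁻¹ • (y - t • Y) := by
            rw [smul_sub, smul_smul, inv_mul_cancel₀ ht0.ne', one_smul]
          rw [e2, norm_smul, norm_inv, Real.norm_of_nonneg ht0.le, inv_mul_lt_iff₀ ht0]
          have : r₀ * ρ / 2 ≤ t * (ρ / 2) := by
            rw [mul_div_assoc]
            exact mul_le_mul_of_nonneg_right htr (by linarith only [hρ])
          linarith only [this, hy, hτ1]
        have h3 := norm_mk_le (t⁻¹ • x - X) (t⁻¹ • y - Y)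
        linarith only [h1, h2, h3, hσ2]
      exact ((hb4 hmem).1).2
  calc ENNReal.ofReal (τ ^ b * vb b 1) = volume (ball (t • Y) τ) := by
        rw [Measure.addHaar_ball_center, ← mul_one τ, vol_ball_mul hτ0.le hb1',
          ENNReal.ofReal_mul (by positivity), mul_one]
        ring
    _ ≤ volume (fib D x) := measure_mono hsub

end Pool.Agent.U69.CN
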