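import Pool.Agent.U69.CN.Basic
import Pool.Agent.TH914.HU.Pol

/-!
# The cone problem (MP_65ff7c_an): volumes and the perimeter of the cylinders
-/

set_option autoImplicit false

open MeasureTheory Set Metric Filter Topology
open scoped ENNReal Real

noncomputable section

namespace Pool.Agent.U69.CN

open Pool.Agent.TH703.Cone

variable {b : ℕ}

/-! ### T7 -/

theorem t7a : S_T7a := by
  intro b ε hb hε f hf
  have hm : Measurable ((Om b ε).indicator fun z => f z.fst) :=
    (hf.comp continuous_fst'.measurable).indicator (Om_open b ε).measurableSet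
  rw [← lintegral_indicator (Om_open b ε).measurableSet, lint _ hm,
    ← lintegral_indicator measurableSet_ball, ← lintegral_const_mul]
  · refine lintegral_congr fun x => ?_
    have : (fun y : B b => (Om b ε).indicator (fun z => f z.fst) (mk x y)) =
        (fib (Om b ε) x).indicator fun _ => f x := by
      funext y
      by_cases hy : mk x y ∈ Om b ε
      · rw [indicator_of_mem hy, indicator_of_mem (show y ∈ fib (Om b ε) x from hy)]
        rfl
      · rw [indicator_of_notMem hy, indicator_of_notMem (show y ∉ fib (Om b ε) x from hy)]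
    rw [this, lintegral_indicator (measurableSet_fib (Om_open b ε).measurableSet x),
      setLIntegral_const, vol_fib_Om hε hb]
    by_cases hx : x ∈ ball (0 : ℂ) 1
    · rw [indicator_of_mem hx, indicator_of_mem hx]
      ring
    · rw [indicator_of_notMem hx, indicator_of_notMem hx, mul_zero, mul_zero]
  · refine Measurable.indicator ?_ measurableSet_ball
    exact hf.mul (by fun_prop)

/-- the integral of the weight over a disc -/
lemma int_wt (b : ℕ) {r : ℝ} (hr : 0 ≤ r) :
    ∫ x in ball (0 : ℂ) r, (1 - ‖x‖) ^ b = 2 * π *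
      ((1 - (1 - r) ^ (b + 1) * (1 + (b + 1) * r)) / ((b + 1) * (b + 2))) := by
  rw [Pool.Agent.TH914.HU.int_ball (by fun_prop) 0 hr]
  have h1 : ∀ ρ ∈ uIcc (0 : ℝ) r, ∫ θ in (-π)..π,
      ρ * (1 - ‖Pool.Agent.TH914.HU.pt 0 ρ θ‖) ^ b = 2 * π * (ρ * (1 - ρ) ^ b) := by
    intro ρ hρ
    rw [uIcc_of_le hr] at hρ
    have : ∀ θ, ‖Pool.Agent.TH914.HU.pt 0 ρ θ‖ = ρ := by
      intro θ
      unfold Pool.Agent.TH914.HU.pt
      rw [zero_add, norm_mul, Pool.Agent.TH914.HU.ee_norm, mul_one, Complex.norm_real,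
        Real.norm_of_nonneg hρ.1]
    simp_rw [this]
    rw [intervalIntegral.integral_const, smul_eq_mul]
    ring
  rw [intervalIntegral.integral_congr h1, intervalIntegral.integral_const_mul]
  congr 1
  have h2 : ∀ ρ ∈ uIcc (0 : ℝ) r, HasDerivAt
      (fun ρ : ℝ => (1 - (1 - ρ) ^ (b + 1) * (1 + (b + 1) * ρ)) / (((b : ℝ) + 1) * (b + 2)))
      (ρ * (1 - ρ) ^ b) ρ := by
    intro ρ _
    have h3 : HasDerivAt (fun ρ : ℝ => (1 - ρ)) (-1) ρ := by
      simpa using (hasDerivAt_id ρ).const_sub 1
    have h4 : HasDerivAt (fun ρ : ℝ => (1 - ρ) ^ (b + 1))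
        (((b + 1 : ℕ) : ℝ) * (1 - ρ) ^ b * (-1)) ρ := by
      simpa using h3.fun_pow (b + 1)
    have h5 : HasDerivAt (fun ρ : ℝ => (1 + ((b : ℝ) + 1) * ρ)) ((b : ℝ) + 1) ρ := by
      simpa using ((hasDerivAt_id ρ).const_mul ((b : ℝ) + 1)).const_add 1
    have h6 := ((h4.mul h5).const_sub 1).div_const (((b : ℝ) + 1) * (b + 2))
    refine h6.congr_deriv ?_
    have : ((b : ℝ) + 1) * (b + 2) ≠ 0 := by positivity
    rw [div_eq_iff this]
    push_cast
    ring
  rw [intervalIntegral.integral_eq_sub_of_hasDerivAt h2 ((by fun_prop : Continuous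
    fun ρ : ℝ => ρ * (1 - ρ) ^ b).intervalIntegrable _ _)]
  simp

theorem t7b : S_T7b := by
  intro b ε r hb hε hr hr1
  have hm : MeasurableSet {z : W b | z ∈ Om b ε ∧ ‖z.fst‖ < r} :=
    ((Om_open b ε).inter (isOpen_lt continuous_fst'.norm continuous_const)).measurableSet
  have h1 := t7a b ε hb hε ((ball (0 : ℂ) r).indicator fun _ => 1)
    (measurable_const.indicator measurableSet_ball)
  have h2 : ∫⁻ z in Om b ε, (ball (0 : ℂ) r).indicator (fun _ => 1) z.fst =
      volume {z : W b | z ∈ Om b ε ∧ ‖z.fst‖ < r} := by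
    rw [← lintegral_indicator (Om_open b ε).measurableSet, ← setLIntegral_one,
      ← lintegral_indicator hm]
    refine lintegral_congr fun z => ?_
    by_cases h1 : z ∈ Om b ε
    · by_cases h2 : ‖z.fst‖ < r
      · rw [indicator_of_mem h1, indicator_of_mem (show z ∈ {z : W b | z ∈ Om b ε ∧ ‖z.fst‖ < r}
          from ⟨h1, h2⟩), indicator_of_mem (by rwa [mem_ball_zero_iff])]
      · rw [indicator_of_mem h1, indicator_of_notMem (show z ∉ {z : W b | z ∈ Om b ε ∧
          ‖z.fst‖ < r} from fun h => h2 h.2), indicator_of_notMem (by rwa [mem_ball_zero_iff])]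
    · rw [indicator_of_notMem h1, indicator_of_notMem (show z ∉ {z : W b | z ∈ Om b ε ∧
          ‖z.fst‖ < r} from fun h => h1 h.1)]
  rw [← h2, h1, ENNReal.ofReal_mul (vb_pos b hε).le, ← int_wt b hr]
  congr 1
  have hc : Continuous fun x : ℂ => (1 - ‖x‖) ^ b := by fun_prop
  rw [ofReal_integral_eq_lintegral_ofReal]
  · rw [← lintegral_indicator measurableSet_ball, ← lintegral_indicator measurableSet_ball]
    refine lintegral_congr fun x => ?_
    by_cases hx : x ∈ ball (0 : ℂ) r
    · have hx1 : x ∈ ball (0 : ℂ) 1 := ball_subset_ball hr1 hx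
      rw [indicator_of_mem hx1, indicator_of_mem hx, indicator_of_mem hx, one_mul]
    · rw [indicator_of_notMem hx]
      by_cases hx1 : x ∈ ball (0 : ℂ) 1
      · rw [indicator_of_mem hx1, indicator_of_notMem hx, zero_mul]
      · rw [indicator_of_notMem hx1]
  · exact (hc.continuousOn.integrableOn_compact (isCompact_closedBall 0 r)).mono_set
      ball_subset_closedBall
  · refine (ae_restrict_iff' measurableSet_ball).2 (Eventually.of_forall fun x hx => ?_)
    rw [mem_ball_zero_iff] at hx
    have : 0 ≤ 1 - ‖x‖ := by linarith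
    exact pow_nonneg this b

/-! ### the divergence in coordinates -/

/-- the linear inclusions -/
def iL (b : ℕ) : ℂ →L[ℝ] W b :=
  ((WithLp.prodContinuousLinearEquiv 2 ℝ ℂ (B b)).symm : (ℂ × B b) →L[ℝ] W b).comp
    (ContinuousLinearMap.inl ℝ ℂ (B b))

def iR (b : ℕ) : B b →L[ℝ] W b :=
  ((WithLp.prodContinuousLinearEquiv 2 ℝ ℂ (B b)).symm : (ℂ × B b) →L[ℝ] W b).comp
    (ContinuousLinearMap.inr ℝ ℂ (B b))

def pL (b : ℕ) : W b →L[ℝ] ℂ :=
  (ContinuousLinearMap.fst ℝ ℂ (B b)).comp
    ((WithLp.prodContinuousLinearEquiv 2 ℝ ℂ (B b)) : W b →L[ℝ] (ℂ × B b))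

def pR (b : ℕ) : W b →L[ℝ] B b :=
  (ContinuousLinearMap.snd ℝ ℂ (B b)).comp
    ((WithLp.prodContinuousLinearEquiv 2 ℝ ℂ (B b)) : W b →L[ℝ] (ℂ × B b))

@[simp] lemma iL_apply (x : ℂ) : iL b x = mk x 0 := rfl
@[simp] lemma iR_apply (y : B b) : iR b y = mk 0 y := rfl
@[simp] lemma pL_apply (z : W b) : pL b z = z.fst := rfl
@[simp] lemma pR_apply (z : W b) : pR b z = z.snd := rfl

lemma mk_add_eq (x : ℂ) (y : B b) : mk x y = iL b x + iR b y := by
  change mk x y = mk x 0 + mk 0 y
  change _ = WithLp.toLp 2 ((x, (0 : B b)) + ((0 : ℂ), y))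
  rw [Prod.mk_add_mk, add_zero, zero_add]
  rfl

lemma inner_eq (z w : W b) : inner ℝ z w = inner ℝ z.fst w.fst + inner ℝ z.snd w.snd :=
  WithLp.prod_inner_apply z w

/-- the divergence splits -/
lemma dv_split {φ : W b → W b} (hφ : ContDiff ℝ 1 φ) (x : ℂ) (y : B b) :
    dv φ (mk x y) = Pool.Agent.TH304.MI.dv2 (fun x => (φ (mk x y)).fst) x +
      dv (fun y => (φ (mk x y)).snd) y := by
  have hd := hφ.differentiable (by norm_num) (mk x y)
  have h1 : HasFDerivAt (fun x : ℂ => mk x y) (iL b) x := by
    have : (fun x : ℂ => mk x y) = fun x => iL b x + iR b y := funext fun x => mk_add_eq x y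
    rw [this]
    exact (iL b).hasFDerivAt.add_const _
  have h2 : HasFDerivAt (fun y : B b => mk x y) (iR b) y := by
    have : (fun y : B b => mk x y) = fun y => iL b x + iR b y := funext fun y => mk_add_eq x y
    rw [this]
    exact (iR b).hasFDerivAt.const_add _
  have h3 : HasFDerivAt (fun x => (φ (mk x y)).fst)
      ((pL b).comp ((fderiv ℝ φ (mk x y)).comp (iL b))) x :=
    (pL b).hasFDerivAt.comp x (hd.hasFDerivAt.comp x h1)
  have h4 : HasFDerivAt (fun y => (φ (mk x y)).snd)
      ((pR b).comp ((fderiv ℝ φ (mk x y)).comp (iR b))) y :=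
    (pR b).hasFDerivAt.comp y (hd.hasFDerivAt.comp y h2)
  rw [Pool.Agent.TH703.Cone.Div.dv_eq_sum
    (Complex.orthonormalBasisOneI.prod (EuclideanSpace.basisFun (Fin b) ℝ)) φ]
  rw [Fintype.sum_sum_type]
  congr 1
  · unfold Pool.Agent.TH304.MI.dv2
    rw [h3.fderiv, Fin.sum_univ_two]
    simp only [OrthonormalBasis.prod_apply, Sum.elim_inl, Function.comp_apply]
    have e0 : Complex.orthonormalBasisOneI 0 = 1 := by simp
    have e1 : Complex.orthonormalBasisOneI 1 = Complex.I := by simp
    rw [inner_eq, inner_eq]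
    simp only [LinearMap.inl_apply, e0, e1]
    simp only [ContinuousLinearMap.comp_apply, iL_apply, pL_apply]
    change inner ℝ (1 : ℂ) ((fderiv ℝ φ (mk x y)) (mk 1 0)).fst +
      inner ℝ (0 : B b) _ + (inner ℝ Complex.I ((fderiv ℝ φ (mk x y)) (mk Complex.I 0)).fst +
        inner ℝ (0 : B b) _) = _
    rw [inner_zero_left, inner_zero_left, add_zero, add_zero, Complex.inner, Complex.inner]
    simp
  · rw [Pool.Agent.TH703.Cone.Div.dv_eq_sum (EuclideanSpace.basisFun (Fin b) ℝ), h4.fderiv]
    refine Finset.sum_congr rfl fun i _ => ?_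
    simp only [OrthonormalBasis.prod_apply, Sum.elim_inr, Function.comp_apply]
    rw [inner_eq]
    change inner ℝ (0 : ℂ) _ + inner ℝ _ ((fderiv ℝ φ (mk x y)) (mk 0 _)).snd = _
    rw [inner_zero_left, zero_add]
    rfl

/-- the planar part of the divergence -/
def G1 (φ : W b → W b) (z : W b) : ℝ :=
  (fderiv ℝ φ z (mk 1 0)).fst.re + (fderiv ℝ φ z (mk Complex.I 0)).fst.im

lemma dv2_eq {φ : W b → W b} (hφ : ContDiff ℝ 1 φ) (x : ℂ) (y : B b) :
    Pool.Agent.TH304.MI.dv2 (fun x => (φ (mk x y)).fst) x = G1 φ (mk x y) := by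
  have hd := hφ.differentiable (by norm_num) (mk x y)
  have h1 : HasFDerivAt (fun x : ℂ => mk x y) (iL b) x := by
    have : (fun x : ℂ => mk x y) = fun x => iL b x + iR b y := funext fun x => mk_add_eq x y
    rw [this]
    exact (iL b).hasFDerivAt.add_const _
  have h3 : HasFDerivAt (fun x => (φ (mk x y)).fst)
      ((pL b).comp ((fderiv ℝ φ (mk x y)).comp (iL b))) x :=
    (pL b).hasFDerivAt.comp x (hd.hasFDerivAt.comp x h1)
  unfold Pool.Agent.TH304.MI.dv2 G1
  rw [h3.fderiv]
  rfl

lemma G1_cont {φ : W b → W b} (hφ : ContDiff ℝ 1 φ) : Continuous (G1 φ) := by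
  have h := hφ.continuous_fderiv (by norm_num)
  unfold G1
  exact (Complex.continuous_re.comp (continuous_fst'.comp (h.clm_apply continuous_const))).add
    (Complex.continuous_im.comp (continuous_fst'.comp (h.clm_apply continuous_const)))

lemma G1_zero {φ : W b → W b} {z : W b} (hz : z ∉ tsupport φ) : G1 φ z = 0 := by
  have h : fderiv ℝ φ z = 0 := by
    by_contra h
    exact hz (support_fderiv_subset ℝ (Function.mem_support.2 h))
  unfold G1
  rw [h]
  simp

lemma hcs_bound {E F : Type*} [NormedAddCommGroup E] [ProperSpace E] [NormedAddCommGroup F]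
    {f : E → F} (R : ℝ) (h : ∀ y, R < ‖y‖ → f y = 0) : HasCompactSupport f := by
  refine HasCompactSupport.of_support_subset_isCompact (isCompact_closedBall 0 R) fun y hy => ?_
  rw [mem_closedBall_zero_iff]
  by_contra hc
  exact hy (h y (not_le.1 hc))

theorem t3 : S_T3 := by
  intro b ε r hb hε hr hr1 φ hφ
  have hpi := Real.pi_pos
  set S : Set (W b) := {z | ‖z.fst‖ < r} with hS
  have hSm : MeasurableSet S := (isOpen_lt continuous_fst'.norm continuous_const).measurableSet
  have hOm := (Om_open b ε).measurableSet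
  obtain ⟨R, hR⟩ : ∃ R : ℝ, tsupport φ ⊆ closedBall 0 R := hφ.cs.isBounded.subset_closedBall 0
  have hφ0 : ∀ z, z ∉ Om b ε → φ z = 0 := fun z hz =>
    image_eq_zero_of_notMem_tsupport fun h => hz (hφ.sub h)
  have hφR : ∀ z : W b, R < ‖z‖ → φ z = 0 := fun z hz =>
    image_eq_zero_of_notMem_tsupport fun h => by
      have := hR h
      rw [mem_closedBall_zero_iff] at this
      linarith
  have hdi := Pool.Agent.TH703.Cone.Div.integrable_dv hφ.c1 hφ.cs
  have h1 : ∫ z in {z : W b | z ∈ Om b ε ∧ ‖z.fst‖ < r}, dv φ z = ∫ z, S.indicator (dv φ) z := by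
    rw [integral_indicator hSm]
    have e : {z : W b | z ∈ Om b ε ∧ ‖z.fst‖ < r} = S ∩ Om b ε := by
      ext z
      exact and_comm
    rw [e, ← setIntegral_indicator hOm]
    congr 1
    funext z
    by_cases hz : z ∈ Om b ε
    · rw [indicator_of_mem hz]
    · rw [indicator_of_notMem hz]
      exact (Pool.Agent.TH703.Cone.Div.dv_eq_zero_of_notMem fun h => hz (hφ.sub h)).symm
  rw [h1]
  -- the two parts
  have hG1c : HasCompactSupport (G1 φ) :=
    HasCompactSupport.of_support_subset_isCompact hφ.cs fun z hz => by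
      by_contra h
      exact hz (G1_zero h)
  have hG1i : Integrable (G1 φ) := (G1_cont hφ.c1).integrable_of_hasCompactSupport hG1c
  have hsubi : Integrable (S.indicator fun z => dv φ z - G1 φ z) :=
    (hdi.sub hG1i).indicator hSm
  have h2 : ∫ z, S.indicator (dv φ) z = (∫ z, S.indicator (G1 φ) z) +
      ∫ z, S.indicator (fun z => dv φ z - G1 φ z) z := by
    rw [← integral_add (hG1i.indicator hSm) hsubi]
    congr 1
    funext z
    by_cases hz : z ∈ S
    · simp only [indicator_of_mem hz]
      ring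
    · simp only [indicator_of_notMem hz]
      ring
  have h3 : ∫ z, S.indicator (fun z => dv φ z - G1 φ z) z = 0 := by
    rw [integ _ hsubi]
    have : ∀ x : ℂ, ∫ y : B b, S.indicator (fun z => dv φ z - G1 φ z) (mk x y) = 0 := by
      intro x
      by_cases hx : ‖x‖ < r
      · have e : (fun y : B b => S.indicator (fun z => dv φ z - G1 φ z) (mk x y)) =
            dv (fun y => (φ (mk x y)).snd) := by
          funext y
          rw [indicator_of_mem (show mk x y ∈ S from hx), dv_split hφ.c1, dv2_eq hφ.c1]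
          ring
        rw [e]
        refine Pool.Agent.TH703.Cone.Div.integral_dv ?_ ?_
        · have e2 : (fun y : B b => (φ (mk x y)).snd) =
              fun y => pR b (φ (iL b x + iR b y)) := by
            funext y
            rw [← mk_add_eq]
            rfl
          rw [e2]
          exact (pR b).contDiff.comp (hφ.c1.comp (contDiff_const.add (iR b).contDiff))
        · refine hcs_bound R fun y hy => ?_
          rw [hφR _ (lt_of_lt_of_le hy (norm_snd_le (mk x y)))]
          rfl
      · have e : (fun y : B b => S.indicator (fun z => dv φ z - G1 φ z) (mk x y)) =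
            fun _ => 0 := by
          funext y
          rw [indicator_of_notMem (show mk x y ∉ S from hx)]
        rw [e, integral_zero]
    simp only [this, integral_zero]
  rw [h2, h3, add_zero, integ' _ (hG1i.indicator hSm)]
  -- the flux
  have h4 : ∀ y : B b, ∫ x : ℂ, S.indicator (G1 φ) (mk x y) ≤
      (ball (0 : B b) ((1 - r) * ε)).indicator (fun _ => 2 * π * r) y := by
    intro y
    have e : (fun x : ℂ => S.indicator (G1 φ) (mk x y)) = (ball (0 : ℂ) r).indicator
        (Pool.Agent.TH304.MI.dv2 fun x => (φ (mk x y)).fst) := by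
      funext x
      by_cases hx : ‖x‖ < r
      · rw [indicator_of_mem (show mk x y ∈ S from hx), indicator_of_mem
          (by rwa [mem_ball_zero_iff]), dv2_eq hφ.c1]
      · rw [indicator_of_notMem (show mk x y ∉ S from hx), indicator_of_notMem
          (by rwa [mem_ball_zero_iff])]
    rw [e, integral_indicator measurableSet_ball]
    have hcd : ContDiff ℝ 1 (fun x : ℂ => (φ (mk x y)).fst) := by
      have e2 : (fun x : ℂ => (φ (mk x y)).fst) = fun x => pL b (φ (iL b x + iR b y)) := by
        funext x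
        rw [← mk_add_eq]
        rfl
      rw [e2]
      exact (pL b).contDiff.comp (hφ.c1.comp ((iL b).contDiff.add contDiff_const))
    rw [Pool.Agent.TH914.HU.flux hcd 0 hr.le]
    have hn : ∀ θ, ‖Pool.Agent.TH914.HU.pt 0 r θ‖ = r := by
      intro θ
      unfold Pool.Agent.TH914.HU.pt
      rw [zero_add, norm_mul, Pool.Agent.TH914.HU.ee_norm, mul_one, Complex.norm_real,
        Real.norm_of_nonneg hr.le]
    by_cases hy : y ∈ ball (0 : B b) ((1 - r) * ε)
    · rw [indicator_of_mem hy]
      have hbd : ∀ θ ∈ Icc (-π) π, r * (((φ (mk (Pool.Agent.TH914.HU.pt 0 r θ) y)).fst).re *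
          Real.cos θ + ((φ (mk (Pool.Agent.TH914.HU.pt 0 r θ) y)).fst).im * Real.sin θ) ≤ r := by
        intro θ _
        set v := (φ (mk (Pool.Agent.TH914.HU.pt 0 r θ) y)).fst with hv
        have h5 : ‖v‖ ≤ 1 := (norm_fst_le _).trans (hφ.le _)
        have h6 : v.re * v.re + v.im * v.im ≤ 1 := by
          have := Complex.sq_norm v
          rw [Complex.normSq_apply] at this
          rw [← this]
          nlinarith [norm_nonneg v]
        have h7 := Real.sin_sq_add_cos_sq θ
        have h8 : v.re * Real.cos θ + v.im * Real.sin θ ≤ 1 := by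
          nlinarith [sq_nonneg (v.re - Real.cos θ), sq_nonneg (v.im - Real.sin θ)]
        nlinarith
      have hc2 : Continuous fun θ : ℝ => r * (((φ (mk (Pool.Agent.TH914.HU.pt 0 r θ) y)).fst).re *
          Real.cos θ + ((φ (mk (Pool.Agent.TH914.HU.pt 0 r θ) y)).fst).im * Real.sin θ) := by
        have h5 : Continuous fun θ : ℝ => (φ (mk (Pool.Agent.TH914.HU.pt 0 r θ) y)).fst :=
          hcd.continuous.comp ((Pool.Agent.TH914.HU.pt_cont 0).comp
            (by fun_prop : Continuous fun θ : ℝ => (r, θ)))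
        exact continuous_const.mul (((Complex.continuous_re.comp h5).mul Real.continuous_cos).add
          ((Complex.continuous_im.comp h5).mul Real.continuous_sin))
      calc _ ≤ ∫ _θ in (-π)..π, r :=
            intervalIntegral.integral_mono_on (by linarith) (hc2.intervalIntegrable _ _)
              (intervalIntegrable_const) hbd
        _ = 2 * π * r := by
            rw [intervalIntegral.integral_const, smul_eq_mul]
            ring
    · rw [indicator_of_notMem hy]
      have : ∀ θ, φ (mk (Pool.Agent.TH914.HU.pt 0 r θ) y) = 0 := by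
        intro θ
        apply hφ0
        rw [mem_Om_iff hε, hn]
        rwa [mem_ball_zero_iff] at hy
      simp only [this]
      change ∫ θ in (-π)..π, r * ((0 : ℂ).re * Real.cos θ + (0 : ℂ).im * Real.sin θ) ≤ 0
      simp
  have h5 : Integrable ((ball (0 : B b) ((1 - r) * ε)).indicator fun _ => 2 * π * r) :=
    (integrable_indicator_iff measurableSet_ball).2
      (integrableOn_const measure_ball_lt_top.ne enorm_ne_top)
  have h6 : ∫ y, (ball (0 : B b) ((1 - r) * ε)).indicator (fun _ => 2 * π * r) y =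
      vb b ε * (2 * π * r * (1 - r) ^ b) := by
    rw [integral_indicator measurableSet_ball, setIntegral_const, smul_eq_mul]
    have : volume.real (ball (0 : B b) ((1 - r) * ε)) = vb b ε * (1 - r) ^ b := by
      unfold Measure.real
      have h7 : 0 ≤ 1 - r := by linarith
      rw [vol_ball_mul h7 hb, ENNReal.toReal_mul,
        ENNReal.toReal_ofReal (vb_pos b hε).le, ENNReal.toReal_ofReal (pow_nonneg h7 b)]
    rw [this]
    ring
  rw [← h6]
  by_cases hi : Integrable fun y : B b => ∫ x : ℂ, S.indicator (G1 φ) (mk x y)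
  · exact integral_mono hi h5 h4
  · rw [integral_undef hi, h6]
    have h7 : 0 ≤ 1 - r := by linarith
    have := vb_pos b hε
    positivity

end Pool.Agent.U69.CN
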